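import Mathlib

set_option autoImplicit false

/-!
Piece C of MP_4b482e_nt: algebra.

* `finiteDimensional_algebraicClosure`: in a finitely generated field extension `E/F`, the relative
  algebraic closure of `F` is finite-dimensional over `F`.
* `no_fg_of_preimage_closed`: no finitely generated subfield of `ℂ` contains a set containing `0`
  and closed under both roots of `x ^ 2 - 2 i X x - 1`.
-/

namespace Pool.Agent.Lib.MP_4b482e_nt

open Polynomial

section FG

variable {F E : Type*} [Field F] [Field E] [Algebra F E]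

open scoped IntermediateField.algebraAdjoinAdjoin in
/-- Elements of the relative algebraic closure that are linearly independent over `F` stay so over
the field generated by an algebraically independent set. -/
theorem linearIndependent_adjoin_of_algebraicIndependent {s : Set E}
    (hs : AlgebraicIndependent F ((↑) : s → E)) {ι : Type*} {α : ι → algebraicClosure F E}
    (hα : LinearIndependent F α) :
    LinearIndependent (IntermediateField.adjoin F s) (fun i => (α i : E)) := by
  classical
  have hA : AlgebraicIndependent (algebraicClosure F E) ((↑) : s → E) := hs.algebraicClosure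
  rw [← LinearIndependent.iff_fractionRing (Algebra.adjoin F s) (IntermediateField.adjoin F s)]
  rw [linearIndependent_iff']
  intro t g hg i hi
  -- write the coefficients as polynomials
  have hq : ∀ j, ∃ q : MvPolynomial s F, MvPolynomial.aeval ((↑) : s → E) q = (g j : E) := by
    intro j
    have h1 := (SetLike.ext_iff.mp (Algebra.adjoin_eq_range F s) (g j : E)).mp (g j).2
    exact h1
  choose q hq using hq
  have hsum : MvPolynomial.aeval ((↑) : s → E)
      (∑ j ∈ t, MvPolynomial.C (α j) *
        MvPolynomial.map (algebraMap F (algebraicClosure F E)) (q j)) = 0 := by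
    rw [map_sum, ← hg]
    apply Finset.sum_congr rfl
    intro j _
    rw [map_mul, MvPolynomial.aeval_C, MvPolynomial.aeval_map_algebraMap, hq, Algebra.smul_def,
      mul_comm]
    rfl
  have h0 : (∑ j ∈ t, MvPolynomial.C (α j) *
        MvPolynomial.map (algebraMap F (algebraicClosure F E)) (q j)) = 0 :=
    algebraicIndependent_iff.mp hA _ hsum
  have hqi : q i = 0 := by
    ext m
    have h1 := congrArg (MvPolynomial.coeff m) h0
    rw [MvPolynomial.coeff_sum] at h1
    simp only [MvPolynomial.coeff_C_mul, MvPolynomial.coeff_map, MvPolynomial.coeff_zero] at h1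
    rw [linearIndependent_iff'] at hα
    have h2 := hα t (fun j => (q j).coeff m) (by
      rw [← h1]
      apply Finset.sum_congr rfl
      intro j _
      rw [Algebra.smul_def, mul_comm]) i hi
    simpa using h2
  have h3 := hq i
  rw [hqi, map_zero] at h3
  exact Subtype.ext h3.symm

/-- In a finitely generated field extension the relative algebraic closure of the base is finite
over the base. -/
theorem finiteDimensional_algebraicClosure [Algebra.EssFiniteType F E] :
    FiniteDimensional F (algebraicClosure F E) := by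
  classical
  obtain ⟨s, hs⟩ := exists_isTranscendenceBasis F E
  have halg : Algebra.IsAlgebraic (IntermediateField.adjoin F s) E := by
    have := hs.isAlgebraic_field
    rwa [Subtype.range_coe] at this
  have : Algebra.EssFiniteType (IntermediateField.adjoin F s) E :=
    Algebra.EssFiniteType.of_comp F _ E
  have hfin : Module.Finite (IntermediateField.adjoin F s) E :=
    Algebra.finite_of_essFiniteType_of_isAlgebraic
  have hrank : Module.rank F (algebraicClosure F E) ≤
      (Module.finrank (IntermediateField.adjoin F s) E : ℕ) := by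
    apply rank_le
    intro t ht
    have h1 := linearIndependent_adjoin_of_algebraicIndependent hs.1 ht
    have h2 := h1.fintype_card_le_finrank
    simpa using h2
  exact Module.rank_lt_aleph0_iff.mp (hrank.trans_lt Cardinal.natCast_lt_aleph0)

end FG

section Count

/-- A finite set in a field of characteristic not two, containing `0, 1, -1` and containing both
preimages of each of its points under `x ↦ (x ^ 2 - 1) / (2 i x)`, does not exist. -/
theorem no_finite_preimage_closed {κ : Type*} [Field κ] (h2 : (2 : κ) ≠ 0) (i : κ)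
    (hi : i ^ 2 = -1) (S : Finset κ) (h0 : (0 : κ) ∈ S) (h1 : (1 : κ) ∈ S) (hm : (-1 : κ) ∈ S)
    (hcl : ∀ X ∈ S, ∃ x ∈ S, ∃ y ∈ S, x + y = 2 * i * X ∧ x * y = -1) : False := by
  classical
  have hi0 : i ≠ 0 := by
    rintro rfl
    norm_num at hi
  have h1m : (1 : κ) ≠ -1 := by
    intro h
    apply h2
    linear_combination h
  set ψ : κ → κ := fun x => (x ^ 2 - 1) / (2 * i * x) with hψ
  have hψx : ∀ X x y : κ, x + y = 2 * i * X → x * y = -1 → ψ x = X := by
    intro X x y hs hp
    have hx0 : x ≠ 0 := by
      rintro rfl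
      norm_num at hp
    rw [hψ]
    simp only
    rw [div_eq_iff (mul_ne_zero (mul_ne_zero h2 hi0) hx0)]
    linear_combination x * hs - hp
  set S' : Finset κ := S.filter (fun x => ψ x ∈ S) with hS'
  have hcard : S'.card = ∑ X ∈ S, (S'.filter (fun x => ψ x = X)).card := by
    apply Finset.card_eq_sum_card_fiberwise
    intro x hx
    exact (Finset.mem_filter.mp hx).2
  have hfib : ∀ X ∈ S, 2 ≤ (S'.filter (fun x => ψ x = X)).card +
      (if X = 1 then 1 else 0) + (if X = -1 then 1 else 0) := by
    intro X hX
    obtain ⟨x, hx, y, hy, hs, hp⟩ := hcl X hX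
    have hψ1 : ψ x = X := hψx X x y hs hp
    have hψ2 : ψ y = X := hψx X y x (by rw [add_comm]; exact hs) (by rw [mul_comm]; exact hp)
    have hxm : x ∈ S'.filter (fun x => ψ x = X) := by
      rw [Finset.mem_filter, hS', Finset.mem_filter]
      exact ⟨⟨hx, hψ1 ▸ hX⟩, hψ1⟩
    have hym : y ∈ S'.filter (fun x => ψ x = X) := by
      rw [Finset.mem_filter, hS', Finset.mem_filter]
      exact ⟨⟨hy, hψ2 ▸ hX⟩, hψ2⟩
    by_cases hxy : x = y
    · subst hxy
      have hcard1 : 1 ≤ (S'.filter (fun x => ψ x = X)).card := Finset.card_pos.mpr ⟨x, hxm⟩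
      have hX2 : (X - 1) * (X + 1) = 0 := by
        have h3 : x = i * X := by
          have : 2 * (x - i * X) = 0 := by linear_combination hs
          rcases mul_eq_zero.mp this with h | h
          · exact absurd h h2
          · exact sub_eq_zero.mp h
        rw [h3] at hp
        have : X ^ 2 = 1 := by
          have h4 : i ^ 2 * X ^ 2 = -1 := by linear_combination hp
          rw [hi] at h4
          linear_combination -h4
        linear_combination this
      rcases mul_eq_zero.mp hX2 with h | h
      · rw [if_pos (sub_eq_zero.mp h)]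
        omega
      · rw [if_pos (eq_neg_of_add_eq_zero_left h)]
        omega
    · have hsub : ({x, y} : Finset κ) ⊆ S'.filter (fun x => ψ x = X) := by
        intro z hz
        rw [Finset.mem_insert, Finset.mem_singleton] at hz
        rcases hz with rfl | rfl
        · exact hxm
        · exact hym
      have := Finset.card_le_card hsub
      rw [Finset.card_pair hxy] at this
      omega
  have hsum := Finset.sum_le_sum hfib
  rw [Finset.sum_const, Finset.sum_add_distrib, Finset.sum_add_distrib, ← hcard,
    Finset.sum_ite_eq' S 1, Finset.sum_ite_eq' S (-1), if_pos h1, if_pos hm, smul_eq_mul] at hsum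
  have hle : S'.card ≤ S.card := Finset.card_filter_le _ _
  have h3 : 3 ≤ S.card := by
    have hsub : ({0, 1, -1} : Finset κ) ⊆ S := by
      intro z hz
      simp only [Finset.mem_insert, Finset.mem_singleton] at hz
      rcases hz with rfl | rfl | rfl <;> assumption
    have hc3 : ({0, 1, -1} : Finset κ).card = 3 := by
      rw [Finset.card_eq_three]
      exact ⟨0, 1, -1, zero_ne_one, by simp, h1m, rfl⟩
    rw [← hc3]
    exact Finset.card_le_card hsub
  omega

end Count

section Main

/-- The smallest set of complex numbers containing `0` and closed under both roots of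
`x ^ 2 - 2 i X x - 1`. -/
inductive Tree : ℂ → Prop
  | zero : Tree 0
  | step (X x : ℂ) (hX : Tree X) (hx : x ^ 2 - 2 * Complex.I * X * x - 1 = 0) : Tree x

theorem isIntegral_I : IsIntegral ℤ Complex.I := by
  refine ⟨X ^ 2 + 1, ?_, ?_⟩
  · monicity!
  · simp

theorem Tree.isIntegral {x : ℂ} (h : Tree x) : IsIntegral ℤ x := by
  induction h with
  | zero => exact isIntegral_zero
  | step Y x _ hx ih =>
    have hc : IsIntegral ℤ (2 * Complex.I * Y) := by
      refine IsIntegral.mul (IsIntegral.mul ?_ isIntegral_I) ih
      exact_mod_cast (isIntegral_algebraMap (R := ℤ) (A := ℂ) (x := 2))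
    let c : integralClosure ℤ ℂ := ⟨2 * Complex.I * Y, hc⟩
    have h1 : IsIntegral (integralClosure ℤ ℂ) x := by
      refine ⟨X ^ 2 - C c * X - 1, ?_, ?_⟩
      · monicity!
      · simp only [eval₂_sub, eval₂_pow, eval₂_X, eval₂_mul, eval₂_C, eval₂_one]
        exact hx
    exact isIntegral_trans x h1

/-- Both roots of the quadratic. -/
theorem exists_roots (Y : ℂ) : ∃ x y : ℂ, x ^ 2 - 2 * Complex.I * Y * x - 1 = 0 ∧
    y ^ 2 - 2 * Complex.I * Y * y - 1 = 0 ∧ x + y = 2 * Complex.I * Y ∧ x * y = -1 := by
  obtain ⟨s, hs⟩ := IsAlgClosed.exists_pow_nat_eq (1 - Y ^ 2) (n := 2) (by norm_num)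
  have hI := Complex.I_sq
  refine ⟨Complex.I * Y + s, Complex.I * Y - s, ?_, ?_, ?_, ?_⟩
  · linear_combination hs - Y ^ 2 * hI
  · linear_combination hs - Y ^ 2 * hI
  · ring
  · linear_combination -hs + Y ^ 2 * hI

/-- No finitely generated subfield of `ℂ` contains a set containing `0` and closed under both roots
of `x ^ 2 - 2 i X x - 1`. -/
theorem no_fg_of_preimage_closed (k : IntermediateField ℚ ℂ) (hk : k.FG) (S : Set ℂ)
    (h0 : (0 : ℂ) ∈ S)
    (hcl : ∀ Y ∈ S, ∀ x : ℂ, x ^ 2 - 2 * Complex.I * Y * x - 1 = 0 → x ∈ S)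
    (hS : S ⊆ k) : False := by
  classical
  have : Algebra.EssFiniteType ℚ k := IntermediateField.essFiniteType_iff.mpr hk
  have : FiniteDimensional ℚ (algebraicClosure ℚ k) := finiteDimensional_algebraicClosure
  set K₀ := algebraicClosure ℚ k with hK₀
  have : NumberField K₀ := ⟨⟩
  -- all elements of the tree lie in the ring of integers
  have hTS : ∀ x, Tree x → x ∈ S := by
    intro x hx
    induction hx with
    | zero => exact h0
    | step Y x _ hx ih => exact hcl Y ih x hx
  let j : NumberField.RingOfIntegers K₀ →+* ℂ :=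
    ((algebraMap k ℂ).comp (algebraMap K₀ k)).comp (algebraMap (NumberField.RingOfIntegers K₀) K₀)
  have hj : Function.Injective j := by
    exact ((algebraMap k ℂ).injective.comp (algebraMap K₀ k).injective).comp
      NumberField.RingOfIntegers.coe_injective
  have hlift : ∀ x : ℂ, x ∈ k → IsIntegral ℤ x → ∃ o, j o = x := by
    intro x hxk hx
    have h1 : IsIntegral ℤ (⟨x, hxk⟩ : k) := by
      have h2 : Function.Injective (algebraMap k ℂ) := (algebraMap k ℂ).injective
      exact (isIntegral_algebraMap_iff h2).mp hx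
    have h3 : IsAlgebraic ℚ (⟨x, hxk⟩ : k) := (h1.tower_top (A := ℚ)).isAlgebraic
    have h4 : (⟨x, hxk⟩ : k) ∈ K₀ := mem_algebraicClosure_iff.mpr h3
    have h5 : IsIntegral ℤ (⟨⟨x, hxk⟩, h4⟩ : K₀) := by
      have h2 : Function.Injective (algebraMap K₀ k) := (algebraMap K₀ k).injective
      exact (isIntegral_algebraMap_iff h2).mp h1
    exact ⟨⟨⟨⟨x, hxk⟩, h4⟩, h5⟩, rfl⟩
  have hliftT : ∀ x : ℂ, Tree x → ∃ o, j o = x := fun x hx =>
    hlift x (hS (hTS x hx)) hx.isIntegral
  have hT1 : Tree 1 := Tree.step 0 1 Tree.zero (by ring)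
  have hTm1 : Tree (-1) := Tree.step 0 (-1) Tree.zero (by ring)
  -- the imaginary unit
  have hIk : Complex.I ∈ k := by
    obtain ⟨x, y, hx, hy, hxy, -⟩ := exists_roots 1
    have h1 : x ∈ k := hS (hTS x (Tree.step 1 x hT1 hx))
    have h2 : y ∈ k := hS (hTS y (Tree.step 1 y hT1 hy))
    have h3 : Complex.I = (x + y) / 2 := by
      rw [hxy]
      ring
    rw [h3]
    exact div_mem (add_mem h1 h2) (by exact_mod_cast natCast_mem k 2)
  obtain ⟨ι, hι⟩ := hlift Complex.I hIk isIntegral_I
  -- a maximal ideal above three
  have hprime : (Ideal.span {(3 : ℤ)}).IsMaximal :=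
    PrincipalIdealRing.isMaximal_of_irreducible (Int.prime_three.irreducible)
  obtain ⟨P, hPmax, hPover⟩ := Ideal.exists_maximal_ideal_liesOver_of_isIntegral
    (S := NumberField.RingOfIntegers K₀) (Ideal.span {(3 : ℤ)})
  let _ : Field (NumberField.RingOfIntegers K₀ ⧸ P) := Ideal.Quotient.field P
  have hfin : Finite (NumberField.RingOfIntegers K₀ ⧸ P) := inferInstance
  let _ := Fintype.ofFinite (NumberField.RingOfIntegers K₀ ⧸ P)
  have h3 : (3 : NumberField.RingOfIntegers K₀ ⧸ P) = 0 := by
    have h1 : (3 : ℤ) ∈ P.under ℤ := by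
      rw [← hPover.over]
      exact Ideal.mem_span_singleton_self 3
    have h2 : ((3 : ℤ) : NumberField.RingOfIntegers K₀) ∈ P := by
      simpa [Ideal.mem_comap] using h1
    have h4 := Ideal.Quotient.eq_zero_iff_mem.mpr h2
    have h5 : ((3 : ℤ) : NumberField.RingOfIntegers K₀) = 3 := by norm_num
    rw [h5, map_ofNat] at h4
    exact h4
  have h2 : (2 : NumberField.RingOfIntegers K₀ ⧸ P) ≠ 0 := by
    intro h
    have : (1 : NumberField.RingOfIntegers K₀ ⧸ P) = 0 := by linear_combination h3 - h
    exact one_ne_zero this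
  let T : Set (NumberField.RingOfIntegers K₀ ⧸ P) :=
    {z | ∃ o, Tree (j o) ∧ Ideal.Quotient.mk P o = z}
  refine no_finite_preimage_closed h2 (Ideal.Quotient.mk P ι) ?_ T.toFinset ?_ ?_ ?_ ?_
  · rw [← map_pow]
    have : ι ^ 2 = -1 := by
      apply hj
      rw [map_pow, hι, map_neg, map_one, Complex.I_sq]
    rw [this, map_neg, map_one]
  · rw [Set.mem_toFinset]
    exact ⟨0, by rw [map_zero]; exact Tree.zero, map_zero _⟩
  · rw [Set.mem_toFinset]
    exact ⟨1, by rw [map_one]; exact hT1, map_one _⟩
  · rw [Set.mem_toFinset]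
    exact ⟨-1, by rw [map_neg, map_one]; exact hTm1, by rw [map_neg, map_one]⟩
  · intro Z hZ
    rw [Set.mem_toFinset] at hZ
    obtain ⟨o, ho, rfl⟩ := hZ
    obtain ⟨x, y, hx, hy, hxy, hp⟩ := exists_roots (j o)
    obtain ⟨a, ha⟩ := hliftT x (Tree.step _ x ho hx)
    obtain ⟨b, hb⟩ := hliftT y (Tree.step _ y ho hy)
    refine ⟨Ideal.Quotient.mk P a, ?_, Ideal.Quotient.mk P b, ?_, ?_, ?_⟩
    · rw [Set.mem_toFinset]
      exact ⟨a, by rw [ha]; exact Tree.step _ x ho hx, rfl⟩
    · rw [Set.mem_toFinset]
      exact ⟨b, by rw [hb]; exact Tree.step _ y ho hy, rfl⟩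
    · have : a + b = 2 * ι * o := by
        apply hj
        rw [map_add, map_mul, map_mul, ha, hb, hι, hxy, map_ofNat]
      rw [← map_add, this, map_mul, map_mul, map_ofNat]
    · have : a * b = -1 := by
        apply hj
        rw [map_mul, ha, hb, hp, map_neg, map_one]
      rw [← map_mul, this, map_neg, map_one]

end Main

end Pool.Agent.Lib.MP_4b482e_nt
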