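import Mathlib

set_option autoImplicit false

/-! Square lattices, surjectivity of the Weierstrass function, points of infinite order. -/

namespace Pool.Agent.Lib.MP_4b482e_nt

open PeriodPair Filter Topology Complex

noncomputable section

/-! ### The invariants do not both vanish -/

lemma isConnected_compl_lattice (L : PeriodPair) : IsConnected ((L.lattice : Set ℂ)ᶜ) := by
  refine Set.Countable.isConnected_compl_of_one_lt_rank (by simp) ?_
  exact countable_of_Lindelof_of_discrete (X := L.lattice)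

lemma weierstrassP_not_eventually_zero (L : PeriodPair) (z₀ : ℂ) (hz₀ : z₀ ∉ L.lattice) :
    ¬ ∀ᶠ z in 𝓝 z₀, L.weierstrassP z = 0 := by
  intro h
  have h1 := L.analyticOnNhd_weierstrassP.eqOn_zero_of_preconnected_of_eventuallyEq_zero
    (isConnected_compl_lattice L).isPreconnected hz₀ h
  have h2 : ∀ z, L.weierstrassP z = 0 := by
    intro z
    by_cases hz : z ∈ L.lattice
    · exact L.weierstrassP_coe ⟨z, hz⟩
    · exact h1 hz
  refine L.not_continuousAt_weierstrassP 0 (zero_mem _) ?_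
  have : L.weierstrassP = fun _ => 0 := funext h2
  rw [this]
  exact continuousAt_const

lemma derivWeierstrassP_half (L : PeriodPair) : L.derivWeierstrassP (L.ω₁ / 2) = 0 := by
  have h1 := L.derivWeierstrassP_neg (L.ω₁ / 2)
  have h2 := L.derivWeierstrassP_add_coe (-(L.ω₁ / 2)) ⟨L.ω₁, L.ω₁_mem_lattice⟩
  have h3 : -(L.ω₁ / 2) + L.ω₁ = L.ω₁ / 2 := by ring
  simp only [h3] at h2
  rw [h1] at h2
  have : L.derivWeierstrassP (L.ω₁ / 2) + L.derivWeierstrassP (L.ω₁ / 2) = 0 := by
    nth_rewrite 1 [h2]; ring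
  simpa using this

theorem g_ne (L : PeriodPair) (h2 : L.g₂ = 0) (h3 : L.g₃ = 0) : False := by
  set z₀ := L.ω₁ / 2 with hz₀def
  have hz₀ : z₀ ∉ L.lattice := L.ω₁_div_two_notMem_lattice
  have hP : AnalyticAt ℂ L.weierstrassP z₀ := L.analyticOnNhd_weierstrassP z₀ hz₀
  have hP' : AnalyticAt ℂ (deriv L.weierstrassP) z₀ := hP.deriv
  have hrel : ∀ z, z ∉ L.lattice → deriv L.weierstrassP z ^ 2 = 4 * L.weierstrassP z ^ 3 := by
    intro z hz
    rw [L.deriv_weierstrassP, L.derivWeierstrassP_sq z hz, h2, h3]; ring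
  have hz0 : L.weierstrassP z₀ = 0 := by
    have h := hrel z₀ hz₀
    rw [L.deriv_weierstrassP, derivWeierstrassP_half L] at h
    have h' : L.weierstrassP z₀ ^ 3 = 0 := by
      have : 4 * L.weierstrassP z₀ ^ 3 = 0 := by rw [← h]; ring
      simpa using this
    exact pow_eq_zero_iff (by norm_num) |>.1 h'
  have hev : (fun z => deriv L.weierstrassP z ^ 2) =ᶠ[𝓝 z₀]
      fun z => 4 * L.weierstrassP z ^ 3 := by
    filter_upwards [L.isClosed_lattice.isOpen_compl.mem_nhds hz₀] with z hz using hrel z hz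
  have hfin : analyticOrderAt L.weierstrassP z₀ ≠ ⊤ := by
    rw [Ne, analyticOrderAt_eq_top]
    exact weierstrassP_not_eventually_zero L z₀ hz₀
  obtain ⟨m, hm⟩ := ENat.ne_top_iff_exists.1 hfin
  have hm0 : m ≠ 0 := by
    rintro rfl
    have : analyticOrderAt L.weierstrassP z₀ = 0 := by rw [← hm]; rfl
    rw [analyticOrderAt_eq_zero] at this
    rcases this with h | h
    · exact h hP
    · exact h hz0
  obtain ⟨n, rfl⟩ := Nat.exists_eq_succ_of_ne_zero hm0
  have hd : analyticOrderAt (deriv L.weierstrassP) z₀ = n :=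
    analyticOrderAt_deriv_of_pos hP (by rw [← hm]; push_cast; rfl)
  have h1 : analyticOrderAt (fun z => deriv L.weierstrassP z ^ 2) z₀ = 2 * n := by
    have := analyticOrderAt_pow hP' 2
    rw [hd] at this
    have e : (deriv L.weierstrassP ^ 2) = fun z => deriv L.weierstrassP z ^ 2 := by
      ext z; simp
    rw [e] at this
    rw [this]; simp
  have h4 : analyticOrderAt (fun z => 4 * L.weierstrassP z ^ 3) z₀ = 3 * (n + 1) := by
    have hc : AnalyticAt ℂ (fun _ : ℂ => (4 : ℂ)) z₀ := analyticAt_const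
    have e := analyticOrderAt_mul hc (hP.pow 3)
    have e0 : analyticOrderAt (fun _ : ℂ => (4 : ℂ)) z₀ = 0 := by
      rw [analyticOrderAt_eq_zero]; right; norm_num
    rw [e0, analyticOrderAt_pow hP 3, ← hm] at e
    have : ((fun _ : ℂ => (4 : ℂ)) * L.weierstrassP ^ 3) = fun z => 4 * L.weierstrassP z ^ 3 := by
      ext z; simp
    rw [this] at e
    rw [e]
    simp [mul_add]
  rw [analyticOrderAt_congr hev, h4] at h1
  have : (3 * (n + 1) : ℕ) = (2 * n : ℕ) := by exact_mod_cast h1
  omega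

/-! ### Square lattices -/

/-- Scaling a period pair by a nonzero number. -/
def scale (c : ℂ) (hc : c ≠ 0) (L : PeriodPair) : PeriodPair where
  ω₁ := c * L.ω₁
  ω₂ := c * L.ω₂
  indep := by
    rw [LinearIndependent.pair_iff]
    intro s t h
    refine (LinearIndependent.pair_iff.1 L.indep) s t ?_
    have : c * (s • L.ω₁ + t • L.ω₂) = 0 := by
      rw [← h]; simp only [Complex.real_smul]; ring
    rcases mul_eq_zero.1 this with h' | h'
    · exact absurd h' hc
    · exact h'

lemma mem_scale (c : ℂ) (hc : c ≠ 0) (L : PeriodPair) (z : ℂ) :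
    c * z ∈ (scale c hc L).lattice ↔ z ∈ L.lattice := by
  simp only [PeriodPair.mem_lattice, scale]
  constructor
  · rintro ⟨m, n, h⟩
    refine ⟨m, n, mul_left_cancel₀ hc ?_⟩
    rw [← h]; ring
  · rintro ⟨m, n, h⟩
    exact ⟨m, n, by rw [← h]; ring⟩

/-- The equivalence between the two lattices. -/
def scaleEquiv (c : ℂ) (hc : c ≠ 0) (L : PeriodPair) :
    L.lattice ≃ (scale c hc L).lattice where
  toFun l := ⟨c * l, (mem_scale c hc L l).2 l.2⟩
  invFun l := ⟨c⁻¹ * l, by
    rw [← mem_scale c hc L, mul_inv_cancel_left₀ hc]; exact l.2⟩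
  left_inv l := by ext; simp [hc]
  right_inv l := by ext; simp [hc]

lemma G_scale (c : ℂ) (hc : c ≠ 0) (L : PeriodPair) (n : ℕ) :
    (scale c hc L).G n = (c ^ n)⁻¹ * L.G n := by
  rw [PeriodPair.G, PeriodPair.G, ← (scaleEquiv c hc L).tsum_eq, ← tsum_mul_left]
  refine tsum_congr fun l => ?_
  simp [scaleEquiv, mul_pow, mul_comm]

/-- The Gaussian lattice. -/
def gaussian : PeriodPair where
  ω₁ := 1
  ω₂ := I
  indep := by
    rw [LinearIndependent.pair_iff]
    intro s t h
    have h1 := congrArg Complex.re h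
    have h2 := congrArg Complex.im h
    simp at h1 h2
    exact ⟨h1, h2⟩

lemma I_mul_mem_gaussian (z : ℂ) (hz : z ∈ gaussian.lattice) : I * z ∈ gaussian.lattice := by
  rw [PeriodPair.mem_lattice] at hz ⊢
  obtain ⟨m, n, rfl⟩ := hz
  refine ⟨-n, m, ?_⟩
  simp only [gaussian, Int.cast_neg]
  linear_combination (-(n : ℂ)) * I_mul_I

/-- Multiplication by `i` on a lattice stable under it. -/
def mulI (L : PeriodPair) (h : ∀ z ∈ L.lattice, I * z ∈ L.lattice) : L.lattice ≃ L.lattice where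
  toFun l := ⟨I * l, h l l.2⟩
  invFun l := ⟨-(I * l), neg_mem (h l l.2)⟩
  left_inv l := by
    ext
    change -(I * (I * (l : ℂ))) = l
    linear_combination (-(l : ℂ)) * I_mul_I
  right_inv l := by
    ext
    change I * -(I * (l : ℂ)) = l
    linear_combination (-(l : ℂ)) * I_mul_I

lemma G_six_eq_zero (L : PeriodPair) (h : ∀ z ∈ L.lattice, I * z ∈ L.lattice) : L.G 6 = 0 := by
  have h1 : L.G 6 = -L.G 6 := by
    conv_lhs => rw [PeriodPair.G, ← (mulI L h).tsum_eq]
    rw [PeriodPair.G, ← tsum_neg]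
    refine tsum_congr fun l => ?_
    change ((I * (l : ℂ)) ^ 6)⁻¹ = _
    have : I ^ 6 = -1 := by
      have : I ^ 6 = (I ^ 2) ^ 3 := by ring
      rw [this, I_sq]; norm_num
    rw [mul_pow, this, neg_one_mul, inv_neg]
  have h2 : L.G 6 + L.G 6 = 0 := by nth_rewrite 1 [h1]; ring
  simpa using h2

/-- **Existence of the square lattice** with `g₂ = 4`, `g₃ = 0`. -/
theorem exists_square_lattice : ∃ L : PeriodPair, L.ω₂ = I * L.ω₁ ∧
    (∀ z ∈ L.lattice, I * z ∈ L.lattice) ∧ L.g₂ = 4 ∧ L.g₃ = 0 := by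
  have h3 : gaussian.g₃ = 0 := by
    rw [PeriodPair.g₃, G_six_eq_zero _ I_mul_mem_gaussian, mul_zero]
  have h2 : gaussian.g₂ ≠ 0 := fun h => g_ne gaussian h h3
  obtain ⟨c, hc⟩ : ∃ c : ℂ, c ^ 4 = gaussian.g₂ / 4 := by
    obtain ⟨c, hc⟩ := IsAlgClosed.exists_pow_nat_eq (gaussian.g₂ / 4) (n := 4) (by norm_num)
    exact ⟨c, hc⟩
  have hc0 : c ≠ 0 := by
    rintro rfl
    rw [zero_pow (by norm_num)] at hc
    have : gaussian.g₂ = 0 := by
      have := hc.symm
      rw [div_eq_zero_iff] at this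
      rcases this with h | h
      · exact h
      · norm_num at h
    exact h2 this
  refine ⟨scale c hc0 gaussian, ?_, ?_, ?_, ?_⟩
  · change c * I = I * (c * 1)
    ring
  · intro z hz
    have hz' : z = c * (c⁻¹ * z) := by rw [mul_inv_cancel_left₀ hc0]
    rw [hz', mem_scale] at hz
    have := (mem_scale c hc0 gaussian _).2 (I_mul_mem_gaussian _ hz)
    have e : I * z = c * (I * (c⁻¹ * z)) := by field_simp
    rw [e]; exact this
  · rw [PeriodPair.g₂, G_scale, hc]
    have : gaussian.g₂ = 60 * gaussian.G 4 := rfl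
    have h60 : gaussian.G 4 ≠ 0 := by
      intro h0; apply h2; rw [this, h0, mul_zero]
    rw [this]
    field_simp
  · rw [PeriodPair.g₃, G_scale]
    have : 140 * gaussian.G 6 = 0 := h3
    have h6 : gaussian.G 6 = 0 := by simpa using this
    rw [h6]; ring

/-! ### Surjectivity -/

/-- Near a lattice point `℘` is `h(z)/(z-l)^2` with `h` analytic and `h(l) = 1`. -/
lemma local_form (L : PeriodPair) (l : ℂ) (hl : l ∈ L.lattice) :
    ∃ h : ℂ → ℂ, AnalyticAt ℂ h l ∧ h l = 1 ∧ ∀ z, z ≠ l → (z - l) ^ 2 * L.weierstrassP z = h z := by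
  refine ⟨fun z ↦ (z - l) ^ 2 * L.weierstrassPExcept l z + 1 - (z - l) ^ 2 / l ^ 2, ?_, ?_, ?_⟩
  · have : AnalyticAt ℂ (L.weierstrassPExcept l) l :=
      L.analyticOnNhd_weierstrassPExcept l l (by simp)
    suffices AnalyticAt ℂ (fun z ↦ (z - l) ^ 2 / l ^ 2) l by fun_prop
    by_cases hl₀ : l = 0
    · simpa [hl₀] using analyticAt_const
    · fun_prop (disch := simpa)
  · simp
  · intro z hz
    have := L.ite_eq_one_sub_sq_mul_weierstrassP l hl z
    rw [if_neg hz] at this
    exact this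

/-- **The Weierstrass function takes every complex value.** -/
theorem weierstrassP_surjective (L : PeriodPair) (c : ℂ) :
    ∃ z, z ∉ L.lattice ∧ L.weierstrassP z = c := by
  classical
  by_contra hcon
  push Not at hcon
  -- the reciprocal of ℘ - c is entire
  let g : ℂ → ℂ := fun z => if z ∈ L.lattice then 0 else (L.weierstrassP z - c)⁻¹
  have hg : Differentiable ℂ g := by
    intro z
    by_cases hz : z ∈ L.lattice
    · obtain ⟨h, ha, h1, hh⟩ := local_form L z hz
      have hne : h z - c * (z - z) ^ 2 ≠ 0 := by rw [h1]; simp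
      have key : AnalyticAt ℂ (fun w => (w - z) ^ 2 * (h w - c * (w - z) ^ 2)⁻¹) z := by
        have : AnalyticAt ℂ (fun w => h w - c * (w - z) ^ 2) z := by fun_prop
        exact AnalyticAt.mul (by fun_prop) (this.inv hne)
      refine (key.congr ?_).differentiableAt
      have hnhds := L.compl_lattice_sdiff_singleton_mem_nhds z
      filter_upwards [hnhds] with w hw
      by_cases hwz : w = z
      · subst hwz
        simp [g, hz]
      · have hwL : w ∉ L.lattice := by
          intro hmem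
          exact hw ⟨hmem, hwz⟩
        have hw0 : (w - z) ^ 2 ≠ 0 := pow_ne_zero _ (sub_ne_zero.2 hwz)
        simp only [g, hwL, if_false]
        rw [← hh w hwz]
        have : (w - z) ^ 2 * L.weierstrassP w - c * (w - z) ^ 2
            = (w - z) ^ 2 * (L.weierstrassP w - c) := by ring
        rw [this, mul_inv, ← mul_assoc, mul_inv_cancel₀ hw0, one_mul]
    · have hP := L.analyticOnNhd_weierstrassP z hz
      have hne : L.weierstrassP z - c ≠ 0 := sub_ne_zero.2 (hcon z hz)
      have key : AnalyticAt ℂ (fun w => (L.weierstrassP w - c)⁻¹) z :=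
        AnalyticAt.inv (by fun_prop) hne
      refine (key.congr ?_).differentiableAt
      filter_upwards [L.isClosed_lattice.isOpen_compl.mem_nhds hz] with w hw
      have hw' : w ∉ L.lattice := hw
      simp [g, hw']
  have hper : ∀ z w, w ∈ L.lattice → g (z + w) = g z := by
    intro z w hw
    have h1 : (z + w ∈ L.lattice) ↔ z ∈ L.lattice := by
      constructor
      · intro h; simpa using sub_mem h hw
      · intro h; exact add_mem h hw
    have h2 : L.weierstrassP (z + w) = L.weierstrassP z := L.weierstrassP_add_coe z ⟨w, hw⟩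
    simp only [g, h1, h2]
  have hconst := hg.apply_eq_apply_of_bounded (IsZLattice.isCompact_range_of_periodic L.lattice _
    hg.continuous hper).isBounded
  have h0 : g 0 = 0 := by simp [g]
  have hhalf : g (L.ω₁ / 2) = (L.weierstrassP (L.ω₁ / 2) - c)⁻¹ := by
    simp [g, L.ω₁_div_two_notMem_lattice]
  have := hconst (L.ω₁ / 2) 0
  rw [h0, hhalf, inv_eq_zero] at this
  exact hcon _ L.ω₁_div_two_notMem_lattice (sub_eq_zero.1 this)

/-! ### Points of infinite order -/

lemma weierstrassP_I_mul (L : PeriodPair) (h : ∀ z ∈ L.lattice, I * z ∈ L.lattice) (z : ℂ) :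
    L.weierstrassP (I * z) = -L.weierstrassP z := by
  rw [PeriodPair.weierstrassP, PeriodPair.weierstrassP, ← (mulI L h).tsum_eq, ← tsum_neg]
  refine tsum_congr fun l => ?_
  change 1 / (I * z - I * (l : ℂ)) ^ 2 - 1 / (I * (l : ℂ)) ^ 2 = _
  have h1 : (I * z - I * (l : ℂ)) ^ 2 = -(z - l) ^ 2 := by
    linear_combination ((z - (l : ℂ)) ^ 2) * I_mul_I
  have h2 : (I * (l : ℂ)) ^ 2 = -(l : ℂ) ^ 2 := by
    linear_combination ((l : ℂ) ^ 2) * I_mul_I
  rw [h1, h2, one_div, one_div, inv_neg, inv_neg, one_div, one_div]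
  ring

lemma weierstrassP_eq_zero_of (L : PeriodPair) (h : ∀ z ∈ L.lattice, I * z ∈ L.lattice) {z : ℂ}
    (hz : (1 + I) * z ∈ L.lattice) : L.weierstrassP z = 0 := by
  have h1 : L.weierstrassP (I * z) = L.weierstrassP z := by
    have := L.weierstrassP_add_coe (-z) ⟨(1 + I) * z, hz⟩
    have e : -z + (1 + I) * z = I * z := by ring
    simp only [e] at this
    rw [this, L.weierstrassP_neg]
  rw [weierstrassP_I_mul L h] at h1
  have : L.weierstrassP z + L.weierstrassP z = 0 := by nth_rewrite 1 [← h1]; ring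
  simpa using this

/-- The duplication map for `y² = 4x³ - 4x`. -/
def dup (r : ℚ) : ℚ := (r ^ 2 + 1) ^ 2 / (4 * r * (r ^ 2 - 1))

lemma weierstrassP_two_mul (L : PeriodPair) (h : ∀ z ∈ L.lattice, I * z ∈ L.lattice)
    (hφ : ∀ z, z ∉ L.lattice → (1 + I) * z ∉ L.lattice →
      2 * I * L.weierstrassP z * L.weierstrassP ((1 + I) * z) = L.weierstrassP z ^ 2 - 1)
    {z : ℂ} (hz : z ∉ L.lattice) {r : ℚ} (hr : L.weierstrassP z = r) (h0 : r ≠ 0)
    (h1 : r ^ 2 ≠ 1) : 2 * z ∉ L.lattice ∧ L.weierstrassP (2 * z) = (dup r : ℚ) := by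
  have hr0 : (r : ℂ) ≠ 0 := by exact_mod_cast h0
  have hr1 : (r : ℂ) ^ 2 - 1 ≠ 0 := by
    rw [sub_ne_zero]; exact_mod_cast h1
  have hz1 : (1 + I) * z ∉ L.lattice := by
    intro hmem
    exact hr0 (hr ▸ weierstrassP_eq_zero_of L h hmem)
  have e1 := hφ z hz hz1
  set y := L.weierstrassP ((1 + I) * z) with hy
  rw [hr] at e1
  have hy0 : y ≠ 0 := by
    intro h'
    rw [h', mul_zero] at e1
    exact hr1 e1.symm
  have hz2 : (1 + I) * ((1 + I) * z) ∉ L.lattice := by
    intro hmem
    exact hy0 (weierstrassP_eq_zero_of L h hmem)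
  have e2 := hφ _ hz1 hz2
  rw [← hy] at e2
  have e3 : (1 + I) * ((1 + I) * z) = I * (2 * z) := by
    linear_combination z * I_mul_I
  rw [e3] at e2 hz2
  rw [weierstrassP_I_mul L h] at e2
  refine ⟨fun hmem => hz2 (h _ hmem), ?_⟩
  -- solve
  have hI2 : I ^ 2 = -1 := I_sq
  have e4 : (r : ℂ) ^ 2 * (y ^ 2 - 1) * 4 = -((r : ℂ) ^ 2 + 1) ^ 2 := by
    have : (2 * I * r * y) ^ 2 = ((r : ℂ) ^ 2 - 1) ^ 2 := by rw [e1]
    have e5 : (2 * I * r * y) ^ 2 = -4 * r ^ 2 * y ^ 2 := by
      linear_combination (4 * (r : ℂ) ^ 2 * y ^ 2) * hI2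
    rw [e5] at this
    linear_combination (-1 : ℂ) * this
  have hne : (4 : ℂ) * r * (r ^ 2 - 1) ≠ 0 :=
    mul_ne_zero (mul_ne_zero (by norm_num) hr0) hr1
  have e6 : L.weierstrassP (2 * z) * (4 * r * (r ^ 2 - 1)) = ((r : ℂ) ^ 2 + 1) ^ 2 := by
    -- multiply by 2 I y r ... = r² - 1
    have : (4 * (r : ℂ) ^ 2) * (2 * I * y * -L.weierstrassP (2 * z)) = -((r : ℂ) ^ 2 + 1) ^ 2 := by
      rw [e2, ← e4]; ring
    have e7 : (4 * (r : ℂ) ^ 2) * (2 * I * y * -L.weierstrassP (2 * z))
        = -(L.weierstrassP (2 * z) * (4 * r * (2 * I * r * y))) := by ring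
    rw [e7, e1] at this
    exact neg_inj.1 this
  rw [dup]
  push_cast
  rw [eq_div_iff hne]
  exact e6

/-- The sequence `x(2^k Q)` for the point with `x(Q) = 2`. -/
def seq : ℕ → ℚ
  | 0 => 2
  | k + 1 => dup (seq k)

lemma val_dup {r : ℚ} (hr : r ≠ 0) (hv : padicValRat 2 r < 0) :
    dup r ≠ 0 ∧ padicValRat 2 (dup r) = padicValRat 2 r - 2 := by
  have : Fact (Nat.Prime 2) := ⟨Nat.prime_two⟩
  have hr2 : padicValRat 2 (r ^ 2) = 2 * padicValRat 2 r := by
    rw [padicValRat.pow]; norm_num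
  have hp : r ^ 2 + 1 ≠ 0 := by positivity
  have hm : r ^ 2 - 1 ≠ 0 := by
    intro h
    have : r ^ 2 = 1 := by linarith
    rw [this, padicValRat.one] at hr2
    omega
  have v1 : padicValRat 2 (r ^ 2 + 1) = 2 * padicValRat 2 r := by
    rw [padicValRat.add_eq_of_lt hp (pow_ne_zero 2 hr) one_ne_zero
      (by rw [hr2, padicValRat.one]; omega), hr2]
  have v2 : padicValRat 2 (r ^ 2 - 1) = 2 * padicValRat 2 r := by
    rw [sub_eq_add_neg] at hm ⊢
    rw [padicValRat.add_eq_of_lt hm (pow_ne_zero 2 hr) (by norm_num)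
      (by rw [hr2, padicValRat.neg, padicValRat.one]; omega), hr2]
  have v4 : padicValRat 2 (4 : ℚ) = 2 := by
    have : (4 : ℚ) = (2 : ℚ) ^ 2 := by norm_num
    rw [this, padicValRat.pow]
    have : padicValRat 2 (2 : ℚ) = 1 := by
      have := padicValRat.self (p := 2) (by norm_num)
      exact_mod_cast this
    rw [this]; norm_num
  have hden : 4 * r * (r ^ 2 - 1) ≠ 0 := mul_ne_zero (mul_ne_zero (by norm_num) hr) hm
  have hnum : (r ^ 2 + 1) ^ 2 ≠ 0 := pow_ne_zero 2 hp
  refine ⟨div_ne_zero hnum hden, ?_⟩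
  rw [dup, padicValRat.div hnum hden, padicValRat.pow, padicValRat.mul
    (mul_ne_zero (by norm_num) hr) hm, padicValRat.mul (by norm_num) hr, v1, v2, v4]
  push_cast
  ring

lemma seq_val (k : ℕ) : seq (k + 1) ≠ 0 ∧ padicValRat 2 (seq (k + 1)) = -3 - 2 * k := by
  have : Fact (Nat.Prime 2) := ⟨Nat.prime_two⟩
  induction k with
  | zero =>
    have h1 : seq 1 = 25 / 24 := by
      change dup 2 = 25 / 24
      rw [dup]; norm_num
    rw [h1]
    refine ⟨by norm_num, ?_⟩
    have e : (25 / 24 : ℚ) = (25 / 3 : ℚ) / 2 ^ 3 := by norm_num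
    rw [e, padicValRat.div (by norm_num) (by norm_num), padicValRat.pow,
      padicValRat.div (by norm_num) (by norm_num)]
    have v2 : padicValRat 2 (2 : ℚ) = 1 := by
      have := padicValRat.self (p := 2) (by norm_num)
      exact_mod_cast this
    have v25 : padicValRat 2 (25 : ℚ) = 0 := by
      have : padicValRat 2 ((25 : ℕ) : ℚ) = 0 := by
        rw [padicValRat.of_nat]
        simp only [Nat.cast_eq_zero]
        exact padicValNat.eq_zero_of_not_dvd (by norm_num)
      exact_mod_cast this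
    have v3 : padicValRat 2 (3 : ℚ) = 0 := by
      have : padicValRat 2 ((3 : ℕ) : ℚ) = 0 := by
        rw [padicValRat.of_nat]
        simp only [Nat.cast_eq_zero]
        exact padicValNat.eq_zero_of_not_dvd (by norm_num)
      exact_mod_cast this
    rw [v2, v25, v3]; norm_num
  | succ k ih =>
    obtain ⟨h0, hv⟩ := ih
    have := val_dup h0 (by rw [hv]; omega)
    refine ⟨this.1, ?_⟩
    change padicValRat 2 (dup (seq (k + 1))) = _
    rw [this.2, hv]; push_cast; ring

lemma seq_good (k : ℕ) : seq k ≠ 0 ∧ seq k ^ 2 ≠ 1 := by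
  cases k with
  | zero => exact ⟨by norm_num [seq], by norm_num [seq]⟩
  | succ k =>
    obtain ⟨h0, hv⟩ := seq_val k
    refine ⟨h0, fun h => ?_⟩
    have : Fact (Nat.Prime 2) := ⟨Nat.prime_two⟩
    have h1 := padicValRat.pow (p := 2) (seq (k+1)) (k := 2)
    rw [h, padicValRat.one, hv] at h1
    push_cast at h1
    omega

lemma seq_injective : Function.Injective seq := by
  have key : ∀ j k, j < k → seq j ≠ seq k := by
    intro j k hjk h
    obtain ⟨k, rfl⟩ : ∃ m, k = m + 1 := ⟨k - 1, by omega⟩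
    obtain ⟨_, hk⟩ := seq_val k
    cases j with
    | zero =>
      have : padicValRat 2 (seq 0) = 1 := by
        have := padicValRat.self (p := 2) (by norm_num)
        change padicValRat 2 (2 : ℚ) = 1
        exact_mod_cast this
      rw [h, hk] at this
      omega
    | succ j =>
      obtain ⟨_, hj⟩ := seq_val j
      rw [h, hk] at hj
      omega
  intro j k h
  rcases lt_trichotomy j k with h' | h' | h'
  · exact absurd h (key j k h')
  · exact h'
  · exact absurd h.symm (key k j h')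

/-- **A point of infinite order**: if `℘(q) = 2` on the square lattice with `g₂ = 4`, then no
positive multiple of `q` is a period. The multiplication formula for `1 + i` is a hypothesis. -/
theorem nontorsion_of (L : PeriodPair) (h : ∀ z ∈ L.lattice, I * z ∈ L.lattice)
    (hφ : ∀ z, z ∉ L.lattice → (1 + I) * z ∉ L.lattice →
      2 * I * L.weierstrassP z * L.weierstrassP ((1 + I) * z) = L.weierstrassP z ^ 2 - 1)
    {q : ℂ} (hq : q ∉ L.lattice) (hq2 : L.weierstrassP q = 2) (n : ℤ) (hn : n ≠ 0) :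
    (n : ℂ) * q ∉ L.lattice := by
  have key : ∀ k : ℕ, 2 ^ k * q ∉ L.lattice ∧ L.weierstrassP (2 ^ k * q) = (seq k : ℚ) := by
    intro k
    induction k with
    | zero => simpa [seq, hq] using hq2
    | succ k ih =>
      obtain ⟨h1, h2⟩ := ih
      have := weierstrassP_two_mul L h hφ h1 h2 (seq_good k).1 (seq_good k).2
      have e : (2 : ℂ) ^ (k + 1) * q = 2 * (2 ^ k * q) := by ring
      rw [e]
      exact this
  intro hmem
  -- pigeonhole on the powers of two modulo n
  have hn' : (n.natAbs : ℤ) ≠ 0 := by simpa using hn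
  have : NeZero n.natAbs := ⟨by simpa using hn⟩
  obtain ⟨j, k, hjk, heq⟩ := Finite.exists_ne_map_eq_of_infinite
    (fun k : ℕ => ((2 ^ k : ℕ) : ZMod n.natAbs))
  have hdvd : ((n.natAbs : ℕ) : ℤ) ∣ ((2 ^ j : ℕ) : ℤ) - ((2 ^ k : ℕ) : ℤ) := by
    rw [← ZMod.intCast_zmod_eq_zero_iff_dvd]
    push_cast
    push_cast at heq
    rw [heq, sub_self]
  have hdvd' : n ∣ ((2 ^ j : ℕ) : ℤ) - ((2 ^ k : ℕ) : ℤ) := Int.natAbs_dvd.1 hdvd
  obtain ⟨m, hm⟩ := hdvd'
  have hlat : 2 ^ j * q - 2 ^ k * q ∈ L.lattice := by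
    have e : (2 : ℂ) ^ j * q - 2 ^ k * q = m • ((n : ℂ) * q) := by
      have : ((2 : ℂ) ^ j - 2 ^ k) = n * m := by exact_mod_cast hm
      rw [← sub_mul, this, zsmul_eq_mul]; ring
    rw [e]
    exact Submodule.smul_mem _ _ hmem
  have hval : L.weierstrassP (2 ^ j * q) = L.weierstrassP (2 ^ k * q) := by
    have := L.weierstrassP_add_coe (2 ^ k * q) ⟨_, hlat⟩
    have e : (2 : ℂ) ^ k * q + (2 ^ j * q - 2 ^ k * q) = 2 ^ j * q := by ring
    simp only [e] at this
    exact this
  rw [(key j).2, (key k).2] at hval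
  have : seq j = seq k := by exact_mod_cast hval
  exact hjk (seq_injective this)

end

end Pool.Agent.Lib.MP_4b482e_nt
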