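import Mathlib
import Pool.Agent.Lib.MP_4b482e_nt.Lattice

set_option autoImplicit false

/-! The multiplication formula for `1 + i` on the square lattice with `g₂ = 4`. -/

namespace Pool.Agent.Lib.MP_4b482e_nt

open PeriodPair Filter Topology Complex
open scoped Nat

noncomputable section

lemma one_add_I_ne : (1 + I : ℂ) ≠ 0 := by
  intro h
  have := congrArg Complex.re h
  simp at this

lemma one_add_I_sq : (1 + I : ℂ) ^ 2 = 2 * I := by
  linear_combination I_mul_I

lemma derivWeierstrassP_I_mul (L : PeriodPair) (h : ∀ z ∈ L.lattice, I * z ∈ L.lattice) (z : ℂ) :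
    L.derivWeierstrassP (I * z) = I * L.derivWeierstrassP z := by
  rw [PeriodPair.derivWeierstrassP, PeriodPair.derivWeierstrassP, ← (mulI L h).tsum_eq,
    mul_neg, ← tsum_mul_left]
  congr 1
  refine tsum_congr fun l => ?_
  change 2 / (I * z - I * (l : ℂ)) ^ 3 = _
  have h1 : (I * z - I * (l : ℂ)) ^ 3 = I ^ 3 * (z - l) ^ 3 := by ring
  have h2 : (I ^ 3)⁻¹ = I := by
    have : I ^ 3 = -I := by
      linear_combination I * I_mul_I
    rw [this, inv_neg, inv_I, neg_neg]
  rw [h1, div_eq_mul_inv, mul_inv, h2, div_eq_mul_inv]; ring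

/-- Expansion of `℘ - 1/z²` at the origin. -/
lemma expansion_zero (L : PeriodPair) : ∃ v : ℂ → ℂ, AnalyticAt ℂ v 0 ∧
    ∀ᶠ z in 𝓝 (0 : ℂ), L.weierstrassPExcept 0 z = 3 * L.G 4 * z ^ 2 + z ^ 3 * v z := by
  have hf : AnalyticAt ℂ (L.weierstrassPExcept 0) 0 := L.analyticAt_weierstrassPExcept 0
  have hg : AnalyticAt ℂ (fun z => L.weierstrassPExcept 0 z - 3 * L.G 4 * z ^ 2) 0 := by
    fun_prop
  have hord : ((3 : ℕ) : ℕ∞) ≤ analyticOrderAt
      (fun z => L.weierstrassPExcept 0 z - 3 * L.G 4 * z ^ 2) 0 := by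
    rw [natCast_le_analyticOrderAt_iff_iteratedDeriv_eq_zero hg]
    intro i hi
    have c1 : ContDiffAt ℂ i (L.weierstrassPExcept 0) 0 := hf.contDiffAt
    have c2 : ContDiffAt ℂ i (fun z : ℂ => 3 * L.G 4 * z ^ 2) 0 := by fun_prop
    have e : iteratedDeriv i (fun z => L.weierstrassPExcept 0 z - 3 * L.G 4 * z ^ 2) 0
        = iteratedDeriv i (L.weierstrassPExcept 0) 0
          - iteratedDeriv i (fun z : ℂ => 3 * L.G 4 * z ^ 2) 0 :=
      iteratedDeriv_fun_sub c1 c2
    rw [e, L.iteratedDeriv_weierstrassPExcept_self]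
    interval_cases i
    · simp
    · simp [L.G_eq_zero_of_odd 3 (by decide)]
    · have : iteratedDeriv 2 (fun z : ℂ => 3 * L.G 4 * z ^ 2) 0 = 6 * L.G 4 := by
        rw [iteratedDeriv_succ, iteratedDeriv_one]
        have h1 : deriv (fun z : ℂ => 3 * L.G 4 * z ^ 2) = fun z => 6 * L.G 4 * z := by
          ext z
          simp
          ring
        rw [h1]
        simp
      rw [this]
      simp [Nat.factorial]
  obtain ⟨v, hv, hv'⟩ := (natCast_le_analyticOrderAt hg).1 hord
  refine ⟨v, hv, ?_⟩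
  filter_upwards [hv'] with z hz
  simp only [sub_zero, smul_eq_mul] at hz
  linear_combination hz

lemma weierstrassP_eq_except (L : PeriodPair) (z : ℂ) :
    L.weierstrassP z = L.weierstrassPExcept 0 z + 1 / z ^ 2 := by
  have := L.weierstrassPExcept_add 0 z
  simp at this
  rw [← this]; simp

/-- The difference of the two sides of the multiplication formula. -/
def defect (L : PeriodPair) (z : ℂ) : ℂ :=
  2 * I * L.weierstrassP z * L.weierstrassP ((1 + I) * z) - L.weierstrassP z ^ 2 + 1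

open Classical in
/-- The defect, set to be zero at the poles. -/
def defectE (L : PeriodPair) (z : ℂ) : ℂ :=
  if (1 + I) * z ∈ L.lattice then 0 else defect L z

lemma defectE_add (L : PeriodPair) (h : ∀ z ∈ L.lattice, I * z ∈ L.lattice) (z l : ℂ)
    (hl : l ∈ L.lattice) : defectE L (z + l) = defectE L z := by
  have hl' : (1 + I) * l ∈ L.lattice := by
    have : (1 + I) * l = l + I * l := by ring
    rw [this]; exact add_mem hl (h l hl)
  have h1 : ((1 + I) * (z + l) ∈ L.lattice) ↔ (1 + I) * z ∈ L.lattice := by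
    rw [mul_add]
    constructor
    · intro h'; simpa using sub_mem h' hl'
    · intro h'; exact add_mem h' hl'
  have h2 : L.weierstrassP (z + l) = L.weierstrassP z := L.weierstrassP_add_coe z ⟨l, hl⟩
  have h3 : L.weierstrassP ((1 + I) * (z + l)) = L.weierstrassP ((1 + I) * z) := by
    rw [mul_add]; exact L.weierstrassP_add_coe _ ⟨_, hl'⟩
  by_cases hz : (1 + I) * z ∈ L.lattice
  · rw [defectE, defectE, if_pos hz, if_pos (h1.2 hz)]
  · rw [defectE, defectE, if_neg hz, if_neg (fun h' => hz (h1.1 h')), defect, defect, h2, h3]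

lemma analyticAt_defectE_zero (L : PeriodPair)
    (hg2 : L.g₂ = 4) : AnalyticAt ℂ (defectE L) 0 := by
  obtain ⟨v, hv, hexp⟩ := expansion_zero L
  have ha : 3 * L.G 4 = 1 / 5 := by
    have : 60 * L.G 4 = 4 := hg2
    linear_combination this / 20
  -- the expansion at (1+I) z
  have hcont : Tendsto (fun z : ℂ => (1 + I) * z) (𝓝 0) (𝓝 0) := by
    have : Continuous (fun z : ℂ => (1 + I) * z) := by fun_prop
    simpa using this.tendsto 0
  have hexp1 := hcont.eventually hexp
  have hv1 : AnalyticAt ℂ (fun z => v ((1 + I) * z)) 0 := by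
    have : AnalyticAt ℂ v ((fun z : ℂ => (1 + I) * z) 0) := by simpa using hv
    exact this.comp (by fun_prop)
  set v1 : ℂ → ℂ := fun z => v ((1 + I) * z) with hv1def
  let f : ℂ → ℂ := fun z => 1 / 5 * z ^ 2 + z ^ 3 * v z
  let f1 : ℂ → ℂ := fun z => 1 / 5 * ((1 + I) * z) ^ 2 + ((1 + I) * z) ^ 3 * v1 z
  have key : AnalyticAt ℂ (fun z => 2 * I * f z * f1 z - f z ^ 2 - z * v z
      + 2 * I * (1 + I) ^ 3 * z * v1 z) 0 := by
    simp only [f, f1]
    fun_prop
  refine key.congr ?_
  have hn1 := L.compl_lattice_sdiff_singleton_mem_nhds 0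
  have hn2 := hcont.eventually (L.compl_lattice_sdiff_singleton_mem_nhds 0)
  filter_upwards [hexp, hexp1, hn1, hn2] with z h1 h2 h3 h4
  by_cases hz : z = 0
  · subst hz
    simp [defectE, f, f1]
  · have hz1 : (1 + I) * z ≠ 0 := mul_ne_zero one_add_I_ne hz
    have hnot : (1 + I) * z ∉ L.lattice := fun hm => h4 ⟨hm, hz1⟩
    rw [defectE, if_neg hnot, defect,
      weierstrassP_eq_except L z, weierstrassP_eq_except L ((1 + I) * z), h1, h2, ha]
    have e1 : (1 : ℂ) / ((1 + I) * z) ^ 2 = 1 / (2 * I * z ^ 2) := by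
      rw [mul_pow, one_add_I_sq]
    rw [e1]
    change 2 * I * f z * f1 z - f z ^ 2 - z * v z + 2 * I * (1 + I) ^ 3 * z * v1 z
      = 2 * I * (f z + 1 / z ^ 2) * (f1 z + 1 / (2 * I * z ^ 2)) - (f z + 1 / z ^ 2) ^ 2 + 1
    have hI : I ≠ 0 := I_ne_zero
    have hf : f z / z ^ 2 = 1 / 5 + z * v z := by
      simp only [f]; field_simp
    have hf1 : 2 * I * f1 z / z ^ 2 = -4 / 5 + 2 * I * (1 + I) ^ 3 * z * v1 z := by
      have : f1 z = 1 / 5 * ((1 + I) ^ 2 * z ^ 2) + ((1 + I) * z) ^ 3 * v1 z := by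
        simp only [f1]; ring
      rw [this, one_add_I_sq]
      field_simp
      linear_combination (4 : ℂ) * I_mul_I
    have e2 : 2 * I * (f z + 1 / z ^ 2) * (f1 z + 1 / (2 * I * z ^ 2))
        = 2 * I * f z * f1 z + f z / z ^ 2 + 2 * I * f1 z / z ^ 2 + (1 / z ^ 2) ^ 2 := by
      field_simp
      ring
    have e3 : (f z + 1 / z ^ 2) ^ 2 = f z ^ 2 + 2 * (f z / z ^ 2) + (1 / z ^ 2) ^ 2 := by
      ring
    rw [e2, e3, hf, hf1]
    ring

/-- At a point `e` with `(1+i) e` a period and `e` not a period, `℘` has a double zero. -/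
lemma double_zero (L : PeriodPair) (h : ∀ z ∈ L.lattice, I * z ∈ L.lattice)
    (hg2 : L.g₂ = 4) (hg3 : L.g₃ = 0) {e : ℂ} (he : e ∉ L.lattice)
    (he' : (1 + I) * e ∈ L.lattice) : ∃ U : ℂ → ℂ, AnalyticAt ℂ U e ∧ U e = -1 ∧
      ∀ᶠ z in 𝓝 e, L.weierstrassP z = (z - e) ^ 2 * U z := by
  have hP : AnalyticAt ℂ L.weierstrassP e := L.analyticOnNhd_weierstrassP e he
  have hPe : L.weierstrassP e = 0 := weierstrassP_eq_zero_of L h he'
  have hrel : ∀ z, z ∉ L.lattice →
      deriv L.weierstrassP z ^ 2 = 4 * L.weierstrassP z ^ 3 - 4 * L.weierstrassP z := by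
    intro z hz
    rw [L.deriv_weierstrassP, L.derivWeierstrassP_sq z hz, hg2, hg3]; ring
  have hfin : analyticOrderAt L.weierstrassP e ≠ ⊤ := by
    rw [Ne, analyticOrderAt_eq_top]
    exact weierstrassP_not_eventually_zero L e he
  obtain ⟨m, hm⟩ := ENat.ne_top_iff_exists.1 hfin
  obtain ⟨U, hU, hU0, hUe⟩ := (hP.analyticOrderAt_eq_natCast).1 hm.symm
  have hm0 : m ≠ 0 := by
    rintro rfl
    have := hUe.self_of_nhds
    rw [hPe] at this
    simp at this
    exact hU0 this.symm
  obtain ⟨n, rfl⟩ := Nat.exists_eq_succ_of_ne_zero hm0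
  -- derivative
  have hder : ∀ᶠ z in 𝓝 e, deriv L.weierstrassP z
      = (z - e) ^ n * ((n + 1) * U z + (z - e) * deriv U z) := by
    filter_upwards [hUe.eventually_nhds, hU.eventually_analyticAt] with z h1 h2
    have h3 : deriv L.weierstrassP z = deriv (fun z => (z - e) ^ (n + 1) * U z) z :=
      Filter.EventuallyEq.deriv_eq h1
    rw [h3, deriv_fun_mul (by fun_prop) h2.differentiableAt]
    have h4 : deriv (fun z : ℂ => (z - e) ^ (n + 1)) z = (n + 1) * (z - e) ^ n := by
      have := (((hasDerivAt_id z).sub_const e).pow (n + 1)).deriv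
      simpa using this
    rw [h4]; ring
  have hrel2 : ∀ᶠ z in 𝓝 e, (z - e) ^ (2 * n) * ((n + 1) * U z + (z - e) * deriv U z) ^ 2
      = (z - e) ^ (n + 1) * (4 * (z - e) ^ (2 * (n + 1)) * U z ^ 3 - 4 * U z) := by
    filter_upwards [hUe, hder, L.isClosed_lattice.isOpen_compl.mem_nhds he] with z h1 h2 h3
    have h4 := hrel z h3
    rw [h2, h1] at h4
    simp only [smul_eq_mul, Nat.succ_eq_add_one] at h4
    have h5 : (z - e) ^ (2 * n) * ((n + 1) * U z + (z - e) * deriv U z) ^ 2
        = ((z - e) ^ n * ((n + 1) * U z + (z - e) * deriv U z)) ^ 2 := by ring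
    rw [h5, h4]
    ring
  have hU' : AnalyticAt ℂ (deriv U) e := hU.deriv
  -- cancel powers of z - e on the punctured neighbourhood and pass to the limit
  have lim : ∀ (F G : ℂ → ℂ) (k : ℕ), AnalyticAt ℂ F e → AnalyticAt ℂ G e →
      (∀ᶠ z in 𝓝 e, (z - e) ^ k * F z = (z - e) ^ k * G z) → F e = G e := by
    intro F G k hF hG hFG
    have h1 : ∀ᶠ z in 𝓝[≠] e, F z = G z := by
      filter_upwards [hFG.filter_mono nhdsWithin_le_nhds, self_mem_nhdsWithin] with z hz hz'
      exact mul_left_cancel₀ (pow_ne_zero k (sub_ne_zero.2 hz')) hz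
    have h2 : Tendsto F (𝓝[≠] e) (𝓝 (F e)) := hF.continuousAt.tendsto.mono_left nhdsWithin_le_nhds
    have h3 : Tendsto G (𝓝[≠] e) (𝓝 (G e)) := hG.continuousAt.tendsto.mono_left nhdsWithin_le_nhds
    exact tendsto_nhds_unique (h2.congr' h1) h3
  rcases lt_trichotomy n 1 with hn | hn | hn
  · exfalso
    have hn : n = 0 := by omega
    subst hn
    have := lim (fun z => ((((0 : ℕ) : ℂ) + 1) * U z + (z - e) * deriv U z) ^ 2)
      (fun z => (z - e) * (4 * (z - e) ^ (2 * (0 + 1)) * U z ^ 3 - 4 * U z)) 0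
      (by fun_prop) (by fun_prop) (by
        filter_upwards [hrel2] with z hz
        simpa using hz)
    simp at this
    exact hU0 this
  · subst hn
    refine ⟨U, hU, ?_, ?_⟩
    · have := lim (fun z => ((((1 : ℕ) : ℂ) + 1) * U z + (z - e) * deriv U z) ^ 2)
        (fun z => (4 * (z - e) ^ (2 * (1 + 1)) * U z ^ 3 - 4 * U z)) 2
        (by fun_prop) (by fun_prop) (by
          filter_upwards [hrel2] with z hz
          simpa using hz)
      simp at this
      have h4 : 4 * U e * (U e + 1) = 0 := by linear_combination this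
      rcases mul_eq_zero.1 h4 with h5 | h5
      · exact absurd (by simpa using h5) hU0
      · linear_combination h5
    · filter_upwards [hUe] with z hz
      simpa using hz
  · exfalso
    obtain ⟨k, rfl⟩ : ∃ k, n = k + 2 := ⟨n - 2, by omega⟩
    have := lim (fun z => (z - e) * ((z - e) ^ k *
        ((((k + 2 : ℕ) : ℂ) + 1) * U z + (z - e) * deriv U z) ^ 2))
      (fun z => (4 * (z - e) ^ (2 * (k + 2 + 1)) * U z ^ 3 - 4 * U z)) (k + 3)
      (by fun_prop) (by fun_prop) (by
        filter_upwards [hrel2] with z hz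
        have e1 : (z - e) ^ (2 * (k + 2)) = (z - e) ^ (k + 3) * ((z - e) * (z - e) ^ k) := by ring
        rw [e1] at hz
        calc (z - e) ^ (k + 3) * ((z - e) * ((z - e) ^ k *
              ((((k + 2 : ℕ) : ℂ) + 1) * U z + (z - e) * deriv U z) ^ 2))
            = (z - e) ^ (k + 3) * ((z - e) * (z - e) ^ k) *
              ((((k + 2 : ℕ) : ℂ) + 1) * U z + (z - e) * deriv U z) ^ 2 := by ring
          _ = _ := by rw [hz])
    simp at this
    exact hU0 this

lemma analyticAt_defectE_half (L : PeriodPair) (h : ∀ z ∈ L.lattice, I * z ∈ L.lattice)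
    (hg2 : L.g₂ = 4) (hg3 : L.g₃ = 0) {e : ℂ} (he : e ∉ L.lattice)
    (he' : (1 + I) * e ∈ L.lattice) : AnalyticAt ℂ (defectE L) e := by
  obtain ⟨U, hU, hUe, hUeq⟩ := double_zero L h hg2 hg3 he he'
  obtain ⟨H, hH, hH1, hHeq⟩ := local_form L _ he'
  have hH2 : AnalyticAt ℂ (fun z => H ((1 + I) * z)) e := by
    have : AnalyticAt ℂ H ((fun z : ℂ => (1 + I) * z) e) := hH
    exact this.comp (by fun_prop)
  set H1 : ℂ → ℂ := fun z => H ((1 + I) * z) with hH1def
  have key : AnalyticAt ℂ (fun z => U z * H1 z - ((z - e) ^ 2 * U z) ^ 2 + 1) e := by fun_prop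
  refine key.congr ?_
  have hcont : Tendsto (fun z : ℂ => (1 + I) * z) (𝓝 e) (𝓝 ((1 + I) * e)) := by
    have : Continuous (fun z : ℂ => (1 + I) * z) := by fun_prop
    exact this.tendsto e
  have hn2 := hcont.eventually (L.compl_lattice_sdiff_singleton_mem_nhds ((1 + I) * e))
  filter_upwards [hUeq, hn2] with z h1 h2
  by_cases hz : z = e
  · subst hz
    rw [defectE, if_pos he']
    simp only [hH1def, hH1, hUe]
    simp
  · have hz1 : (1 + I) * z ≠ (1 + I) * e := fun h' => hz (mul_left_cancel₀ one_add_I_ne h')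
    have hnot : (1 + I) * z ∉ L.lattice := fun hm => h2 ⟨hm, hz1⟩
    rw [defectE, if_neg hnot, defect, h1]
    have h3 := hHeq _ hz1
    have h4 : H1 z = 2 * I * ((z - e) ^ 2 * L.weierstrassP ((1 + I) * z)) := by
      rw [hH1def]
      simp only
      rw [← h3]
      have : ((1 + I) * z - (1 + I) * e) ^ 2 = (1 + I) ^ 2 * (z - e) ^ 2 := by ring
      rw [this, one_add_I_sq]; ring
    rw [h4]; ring

/-- **Multiplication by `1 + i`** on the square lattice with `g₂ = 4`, `g₃ = 0`. -/
theorem weierstrassP_one_add_I (L : PeriodPair) (h : ∀ z ∈ L.lattice, I * z ∈ L.lattice)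
    (hg2 : L.g₂ = 4) (hg3 : L.g₃ = 0) (z : ℂ) (hz : (1 + I) * z ∉ L.lattice) :
    2 * I * L.weierstrassP z * L.weierstrassP ((1 + I) * z) = L.weierstrassP z ^ 2 - 1 := by
  have hdiff : Differentiable ℂ (defectE L) := by
    intro w
    by_cases hw : w ∈ L.lattice
    · have h0 := (analyticAt_defectE_zero L hg2).differentiableAt
      have e : defectE L = fun z => defectE L (z + -w) := by
        ext z; exact (defectE_add L h z (-w) (neg_mem hw)).symm
      rw [e]
      have h1 : DifferentiableAt ℂ (defectE L) (w + -w) := by simpa using h0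
      exact h1.comp w (by fun_prop : DifferentiableAt ℂ (fun z => z + -w) w)
    · by_cases hw' : (1 + I) * w ∈ L.lattice
      · exact (analyticAt_defectE_half L h hg2 hg3 hw hw').differentiableAt
      · have h1 : AnalyticAt ℂ L.weierstrassP w := L.analyticOnNhd_weierstrassP w hw
        have h2 : AnalyticAt ℂ (fun z => L.weierstrassP ((1 + I) * z)) w := by
          have : AnalyticAt ℂ L.weierstrassP ((fun z : ℂ => (1 + I) * z) w) :=
            L.analyticOnNhd_weierstrassP _ hw'
          exact this.comp (by fun_prop)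
        have key : AnalyticAt ℂ (defect L) w := by
          have := ((analyticAt_const (v := 2 * I)).mul h1).mul h2
          have h3 := (this.sub (h1.pow 2)).add (analyticAt_const (v := (1 : ℂ)))
          exact h3
        refine (key.congr ?_).differentiableAt
        have hcont : Tendsto (fun z : ℂ => (1 + I) * z) (𝓝 w) (𝓝 ((1 + I) * w)) := by
          have : Continuous (fun z : ℂ => (1 + I) * z) := by fun_prop
          exact this.tendsto w
        filter_upwards [hcont.eventually (L.isClosed_lattice.isOpen_compl.mem_nhds hw')] with z hz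
        have hz' : (1 + I) * z ∉ L.lattice := hz
        rw [defectE, if_neg hz']
  have hconst := hdiff.apply_eq_apply_of_bounded (IsZLattice.isCompact_range_of_periodic L.lattice _
    hdiff.continuous (fun z w hw => defectE_add L h z w hw)).isBounded z 0
  have h0 : defectE L 0 = 0 := by
    rw [defectE, if_pos (by simp)]
  rw [h0, defectE, if_neg hz, defect] at hconst
  linear_combination hconst

/-- **A point of infinite order**: if `℘(q) = 2` on the square lattice with `g₂ = 4`, `g₃ = 0`,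
then no nonzero multiple of `q` is a period. -/
theorem nontorsion (L : PeriodPair) (h : ∀ z ∈ L.lattice, I * z ∈ L.lattice)
    (hg2 : L.g₂ = 4) (hg3 : L.g₃ = 0) {q : ℂ} (hq : q ∉ L.lattice) (hq2 : L.weierstrassP q = 2)
    (n : ℤ) (hn : n ≠ 0) : (n : ℂ) * q ∉ L.lattice :=
  nontorsion_of L h (fun z _ hz' => weierstrassP_one_add_I L h hg2 hg3 z hz') hq hq2 n hn

end

end Pool.Agent.Lib.MP_4b482e_nt
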