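import Pool.Agent.Lib.MP_4b482e_nt.Zeta

/-!
# The Weierstrass sigma function of a period pair
-/

open Module Filter Topology PeriodPair Complex

noncomputable section

namespace Pool.Agent.Lib.MP_4b482e_nt

variable (L : PeriodPair)

/-- The Weierstrass sigma function
`σ(z) = z * ∏_{l ≠ 0} (1 - z / l) * exp (z / l + z ^ 2 / (2 * l ^ 2))`. -/
def wSigma (z : ℂ) : ℂ :=
  z * ∏' l : L.lattice,
    (if (l : ℂ) = 0 then 1 else (1 - z / l) * exp (z / l + z ^ 2 / (2 * (l : ℂ) ^ 2)))

/-- The elementary factor. -/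
def wFactor (l z : ℂ) : ℂ :=
  if l = 0 then 1 else (1 - z / l) * exp (z / l + z ^ 2 / (2 * l ^ 2))

lemma wSigma_def (z : ℂ) : wSigma L z = z * ∏' l : L.lattice, wFactor l z := rfl

/-- The estimate for the elementary factor. -/
lemma norm_elem_sub_one_le {w : ℂ} (hw : ‖w‖ ≤ 1) :
    ‖(1 - w) * exp (w + w ^ 2 / 2) - 1‖ ≤ Real.exp 2 * ‖w‖ ^ 3 := by
  have hder : ∀ x : ℂ, HasDerivAt (fun x : ℂ => (1 - x) * exp (x + x ^ 2 / 2))
      (-(x ^ 2 * exp (x + x ^ 2 / 2))) x := by
    intro x
    have h1 : HasDerivAt (fun x : ℂ => 1 - x) (-1) x := by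
      simpa using (hasDerivAt_id x).const_sub 1
    have h2 : HasDerivAt (fun x : ℂ => x + x ^ 2 / 2) (1 + x) x := by
      have h3 := (hasDerivAt_id x).add (((hasDerivAt_id x).pow 2).div_const 2)
      refine h3.congr_deriv ?_
      simp
    refine (h1.mul h2.cexp).congr_deriv ?_
    ring
  have hconv : Convex ℝ (Metric.closedBall (0 : ℂ) ‖w‖) := convex_closedBall _ _
  have hbound : ∀ x ∈ Metric.closedBall (0 : ℂ) ‖w‖,
      ‖-(x ^ 2 * exp (x + x ^ 2 / 2))‖ ≤ Real.exp 2 * ‖w‖ ^ 2 := by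
    intro x hx
    rw [Metric.mem_closedBall, dist_zero_right] at hx
    rw [norm_neg, norm_mul, norm_pow, mul_comm]
    have h1 : ‖exp (x + x ^ 2 / 2)‖ ≤ Real.exp 2 := by
      rw [Complex.norm_exp]
      apply Real.exp_le_exp.2
      calc (x + x ^ 2 / 2).re ≤ ‖x + x ^ 2 / 2‖ := Complex.re_le_norm _
        _ ≤ ‖x‖ + ‖x ^ 2 / 2‖ := norm_add_le _ _
        _ = ‖x‖ + ‖x‖ ^ 2 / 2 := by simp
        _ ≤ 2 := by nlinarith [norm_nonneg x]
    gcongr
  have key := hconv.norm_image_sub_le_of_norm_hasDerivWithin_le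
    (f := fun x : ℂ => (1 - x) * exp (x + x ^ 2 / 2))
    (f' := fun x : ℂ => -(x ^ 2 * exp (x + x ^ 2 / 2))) (C := Real.exp 2 * ‖w‖ ^ 2)
    (x := 0) (y := w)
    (fun x _ => (hder x).hasDerivWithinAt) hbound (by simp) (by simp)
  simp at key
  calc _ ≤ _ := key
    _ = _ := by ring

lemma norm_wFactor_sub_one_le {r : ℝ} {z l : ℂ} (hz : ‖z‖ ≤ r) (hl : r ≤ ‖l‖) :
    ‖wFactor l z - 1‖ ≤ Real.exp 2 * r ^ 3 * ‖l‖ ^ (-3 : ℝ) := by
  have hr : 0 ≤ r := (norm_nonneg z).trans hz
  by_cases hl0 : l = 0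
  · simp only [wFactor, hl0, if_true, sub_self, norm_zero]
    positivity
  have hlpos : 0 < ‖l‖ := norm_pos_iff.2 hl0
  have hw : ‖z / l‖ ≤ 1 := by
    rw [norm_div]
    exact (div_le_one hlpos).2 (hz.trans hl)
  have h1 := norm_elem_sub_one_le hw
  have h2 : wFactor l z = (1 - z / l) * exp (z / l + (z / l) ^ 2 / 2) := by
    rw [wFactor, if_neg hl0]
    congr 3
    field_simp
  rw [h2]
  refine h1.trans ?_
  have h3 : ‖l‖ ^ (-3 : ℝ) = (‖l‖ ^ 3)⁻¹ := by norm_cast
  rw [h3, norm_div, div_pow, mul_assoc, div_eq_mul_inv]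
  gcongr

lemma summable_aux (r : ℝ) :
    Summable (fun l : L.lattice => Real.exp 2 * r ^ 3 * ‖(l : ℂ)‖ ^ (-3 : ℝ)) :=
  (ZLattice.summable_norm_rpow (L := L.lattice) (-3 : ℝ) (by simp; norm_num)).mul_left _

lemma eventually_norm_ge (r : ℝ) : ∀ᶠ l : L.lattice in cofinite, r ≤ ‖(l : ℂ)‖ := by
  have h : {l : L.lattice | ¬ r ≤ ‖(l : ℂ)‖}.Finite := by
    refine (isCompact_iff_finite.mp (isCompact_closedBall (0 : L.lattice) r)).subset ?_
    intro l hl
    simp only [Set.mem_ofPred_eq, not_le] at hl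
    simpa using hl.le
  exact h

lemma continuous_wFactor (l : ℂ) : Continuous (wFactor l) := by
  unfold wFactor
  split_ifs
  · exact continuous_const
  · fun_prop

lemma differentiable_wFactor (l : ℂ) : Differentiable ℂ (wFactor l) := by
  unfold wFactor
  split_ifs
  · exact differentiable_const _
  · fun_prop

lemma hasProdLocallyUniformlyOn_wFactor :
    HasProdLocallyUniformlyOn (fun (l : L.lattice) z => wFactor l z)
      (fun z => ∏' l : L.lattice, wFactor l z) Set.univ := by
  apply hasProdLocallyUniformlyOn_of_forall_compact isOpen_univ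
  intro K _ hK
  obtain ⟨r, hr⟩ := hK.isBounded.subset_closedBall (0 : ℂ)
  have h := (summable_aux L r).hasProdUniformlyOn_one_add
    (f := fun (l : L.lattice) z => wFactor l z - 1) hK ?_ ?_
  · simpa using h
  · filter_upwards [eventually_norm_ge L r] with l hl z hz
    exact norm_wFactor_sub_one_le (by simpa using hr hz) hl
  · intro l
    exact ((continuous_wFactor _).sub continuous_const).continuousOn

/-- The product without the factor `z`. -/
def wProd (z : ℂ) : ℂ := ∏' l : L.lattice, wFactor l z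

lemma differentiable_wProd : Differentiable ℂ (wProd L) := by
  rw [← differentiableOn_univ]
  refine (hasProdLocallyUniformlyOn_wFactor L).differentiableOn ?_ isOpen_univ
  refine .of_forall fun s => ?_
  have h : DifferentiableOn ℂ (∏ l ∈ s, fun z => wFactor (l : ℂ) z) Set.univ :=
    DifferentiableOn.finsetProd
      (fun l _ => (differentiable_wFactor (l : ℂ)).differentiableOn)
  simpa [Finset.prod_fn] using h

lemma wProd_zero : wProd L 0 = 1 := by
  have h : ∀ l : L.lattice, wFactor l 0 = 1 := by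
    intro l
    simp [wFactor]
  simp [wProd, h]

lemma wSigma_eq (z : ℂ) : wSigma L z = z * wProd L z := rfl

theorem differentiable_wSigma : Differentiable ℂ (wSigma L) := by
  have : wSigma L = fun z => z * wProd L z := rfl
  rw [this]
  exact differentiable_id.mul (differentiable_wProd L)

lemma wFactor_eq_zero_iff (l z : ℂ) : wFactor l z = 0 ↔ l ≠ 0 ∧ z = l := by
  unfold wFactor
  split_ifs with h
  · simp [h]
  · simp only [mul_eq_zero, exp_ne_zero, or_false, ne_eq, h, not_false_eq_true, true_and]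
    rw [sub_eq_zero, eq_comm, div_eq_one_iff_eq h]

lemma wProd_ne_zero {z : ℂ} (hz : z ∉ L.lattice ∨ z = 0) : wProd L z ≠ 0 := by
  have h : ∏' l : L.lattice, (1 + (wFactor l z - 1)) ≠ 0 := by
    refine tprod_one_add_ne_zero_of_summable ?_ ?_
    · intro l
      rw [add_sub_cancel, Ne, wFactor_eq_zero_iff]
      rintro ⟨h1, h2⟩
      rcases hz with hz | hz
      · exact hz (h2 ▸ l.2)
      · exact h1 (h2 ▸ hz)
    · refine Summable.of_norm_bounded_eventually (summable_aux L ‖z‖) ?_
      filter_upwards [eventually_norm_ge L ‖z‖] with l hl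
      rw [norm_norm]
      exact norm_wFactor_sub_one_le le_rfl hl
  simpa [wProd] using h

lemma wProd_eq_zero {z : ℂ} (hz : z ∈ L.lattice) (hz0 : z ≠ 0) : wProd L z = 0 := by
  refine tprod_of_exists_eq_zero ⟨⟨z, hz⟩, ?_⟩
  rw [wFactor_eq_zero_iff]
  exact ⟨hz0, rfl⟩

theorem wSigma_eq_zero_iff {z : ℂ} : wSigma L z = 0 ↔ z ∈ L.lattice := by
  rw [wSigma_eq, mul_eq_zero]
  constructor
  · rintro (h | h)
    · rw [h]; exact zero_mem _
    · by_contra hz
      exact wProd_ne_zero L (Or.inl hz) h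
  · intro hz
    by_cases hz0 : z = 0
    · exact Or.inl hz0
    · exact Or.inr (wProd_eq_zero L hz hz0)

theorem tendsto_wSigma_div : Tendsto (fun z => wSigma L z / z) (𝓝[≠] 0) (𝓝 1) := by
  have h1 : Tendsto (wProd L) (𝓝[≠] 0) (𝓝 1) := by
    have := (differentiable_wProd L).continuous.tendsto 0
    rw [wProd_zero] at this
    exact this.mono_left nhdsWithin_le_nhds
  refine h1.congr' ?_
  filter_upwards [self_mem_nhdsWithin] with z hz
  have hz' : z ≠ 0 := hz
  rw [wSigma_eq, mul_div_cancel_left₀ _ hz']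

lemma logDeriv_wFactor {l z : ℂ} (hl : l ≠ 0) (hz : z ≠ l) :
    logDeriv (wFactor l) z = 1 / (z - l) + 1 / l + z / l ^ 2 := by
  have hzl : z - l ≠ 0 := sub_ne_zero.2 hz
  have h1 : HasDerivAt (fun z : ℂ => 1 - z / l) (-(1 / l)) z := by
    simpa using ((hasDerivAt_id z).div_const l).const_sub 1
  have h2 : HasDerivAt (fun z : ℂ => z / l + z ^ 2 / (2 * l ^ 2)) (1 / l + z / l ^ 2) z := by
    have h3 := ((hasDerivAt_id z).div_const l).add
      (((hasDerivAt_id z).pow 2).div_const (2 * l ^ 2))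
    refine h3.congr_deriv ?_
    simp
    field_simp
  have h3 : wFactor l = fun z => (1 - z / l) * exp (z / l + z ^ 2 / (2 * l ^ 2)) := by
    ext z; rw [wFactor, if_neg hl]
  have h4 := h1.mul h2.cexp
  rw [logDeriv_apply, h3]
  have h5 : deriv (fun z => (1 - z / l) * exp (z / l + z ^ 2 / (2 * l ^ 2))) z = _ := h4.deriv
  rw [h5]
  have h6 : (1 - z / l) ≠ 0 := by
    rw [sub_ne_zero, ne_comm, Ne, div_eq_one_iff_eq hl]
    exact hz
  have h7 : exp (z / l + z ^ 2 / (2 * l ^ 2)) ≠ 0 := exp_ne_zero _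
  have h8 : l - z ≠ 0 := by
    rw [← neg_sub]; exact neg_ne_zero.2 hzl
  have h9 : 1 - z / l = (l - z) / l := by field_simp
  rw [h9]
  field_simp
  ring

lemma logDeriv_wFactor' {l z : ℂ} (hz : z ≠ l) :
    logDeriv (wFactor l) z = if l = 0 then 0 else 1 / (z - l) + 1 / l + z / l ^ 2 := by
  split_ifs with h
  · have : wFactor l = fun _ => 1 := by
      ext z; rw [wFactor, if_pos h]
    rw [this, logDeriv_apply]
    simp
  · exact logDeriv_wFactor h hz

theorem logDeriv_wSigma {z : ℂ} (hz : z ∉ L.lattice) : logDeriv (wSigma L) z = wZeta L z := by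
  have hz0 : z ≠ 0 := by
    rintro rfl; exact hz (zero_mem _)
  have hne : ∀ l : L.lattice, z ≠ l := by
    rintro l rfl; exact hz l.2
  have h1 : logDeriv (wProd L) z = wZetaExcept L 0 z := by
    have := logDeriv_tprod_eq_tsum (s := Set.univ) isOpen_univ (x := z) (Set.mem_univ _)
      (f := fun (l : L.lattice) z => wFactor l z) (fun l => ?_)
      (fun l => (differentiable_wFactor _).differentiableOn) ?_
      (hasProdLocallyUniformlyOn_wFactor L).multipliableLocallyUniformlyOn
      (wProd_ne_zero L (Or.inl hz))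
    · have h2 : wProd L = fun z => ∏' l : L.lattice, wFactor l z := rfl
      rw [h2]
      rw [this, wZetaExcept]
      congr 1
      ext l
      exact logDeriv_wFactor' (hne l)
    · rw [Ne, wFactor_eq_zero_iff]
      rintro ⟨_, h⟩
      exact hne l h
    · have h3 := (hasSum_wZetaExcept L 0 z).summable
      refine h3.congr ?_
      intro l
      exact (logDeriv_wFactor' (hne l)).symm
  have h2 : wSigma L = fun z => z * wProd L z := rfl
  rw [h2, logDeriv_mul (f := fun z => z) z hz0 (wProd_ne_zero L (Or.inl hz)) differentiableAt_id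
    (differentiable_wProd L z), h1]
  have h3 := wZetaExcept_add L (0 : L.lattice) z
  rw [← h3]
  simp [logDeriv_apply]
  ring

theorem wSigma_neg (z : ℂ) : wSigma L (-z) = - wSigma L z := by
  rw [wSigma_eq, wSigma_eq]
  have : wProd L (-z) = wProd L z := by
    unfold wProd
    rw [← (Equiv.neg L.lattice).tprod_eq]
    congr 1
    ext l
    simp only [wFactor, Equiv.neg_apply, NegMemClass.coe_neg, neg_eq_zero]
    split_ifs with h
    · rfl
    · congr 2
      · rw [neg_div_neg_eq]
      · rw [neg_div_neg_eq, neg_sq, neg_sq]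
  rw [this]
  ring

/-- Multiplication by `I` as a permutation of an `I`-stable lattice. -/
def mulIEquiv (h : ∀ l ∈ L.lattice, I * l ∈ L.lattice) : L.lattice ≃ L.lattice where
  toFun l := ⟨I * l, h l l.2⟩
  invFun l := ⟨-(I * l), neg_mem (h l l.2)⟩
  left_inv l := by
    ext
    simp only [← mul_assoc, I_mul_I]
    ring
  right_inv l := by
    ext
    simp only [mul_neg, ← mul_assoc, I_mul_I]
    ring

theorem wSigma_I_mul (h : ∀ l ∈ L.lattice, I * l ∈ L.lattice) (z : ℂ) :
    wSigma L (I * z) = I * wSigma L z := by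
  rw [wSigma_eq, wSigma_eq]
  have : wProd L (I * z) = wProd L z := by
    unfold wProd
    rw [← (mulIEquiv L h).tprod_eq]
    congr 1
    ext l
    simp only [wFactor, mulIEquiv, Equiv.coe_fn_mk, mul_eq_zero, I_ne_zero, false_or]
    split_ifs with h
    · rfl
    · have e1 : I * z / (I * l) = z / l := mul_div_mul_left _ _ I_ne_zero
      have e2 : (I * z) ^ 2 / (2 * (I * (l : ℂ)) ^ 2) = z ^ 2 / (2 * (l : ℂ) ^ 2) := by
        rw [mul_pow, mul_pow, I_sq]
        rw [show (2 : ℂ) * (-1 * (l : ℂ) ^ 2) = -(2 * (l : ℂ) ^ 2) by ring]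
        rw [show -1 * z ^ 2 = -(z ^ 2) by ring, neg_div_neg_eq]
      rw [e1, e2]
  rw [this]
  ring

end Pool.Agent.Lib.MP_4b482e_nt
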