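import Mathlib

/-!
# The Weierstrass zeta function of a period pair
-/

open Module Filter Topology PeriodPair

noncomputable section

namespace Pool.Agent.Lib.MP_4b482e_nt

variable (L : PeriodPair)

/-- The Weierstrass zeta function with the `l₀`-term missing. -/
def wZetaExcept (l₀ z : ℂ) : ℂ :=
  ∑' l : L.lattice, if l.1 = l₀ then 0 else (1 / (z - l) + 1 / l + z / (l : ℂ) ^ 2)

/-- The Weierstrass zeta function
`ζ(z) = 1 / z + ∑_{l ≠ 0} (1 / (z - l) + 1 / l + z / l ^ 2)`
(the term `l = 0` is `1 / z`, because `1 / 0 = 0` in Lean). -/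
def wZeta (z : ℂ) : ℂ := ∑' l : L.lattice, (1 / (z - l) + 1 / l + z / (l : ℂ) ^ 2)

theorem wZeta_bound (r : ℝ) (hr : 0 < r) (s : ℂ) (hs : ‖s‖ < r) (l : ℂ) (h : 2 * r ≤ ‖l‖) :
    ‖1 / (s - l) + 1 / l + s / l ^ 2‖ ≤ 2 * r ^ 2 * ‖l‖ ^ (-3 : ℝ) := by
  have hsl : s ≠ l := by rintro rfl; linarith
  have hl : 0 < ‖l‖ := by linarith
  have hl0 : l ≠ 0 := norm_pos_iff.mp hl
  have hsl' : s - l ≠ 0 := sub_ne_zero.mpr hsl
  have h1 : 1 / (s - l) + 1 / l + s / l ^ 2 = s ^ 2 / (l ^ 2 * (s - l)) := by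
    field_simp
    ring
  rw [h1, norm_div, norm_mul, norm_pow, norm_pow]
  have h2 : ‖l‖ / 2 ≤ ‖s - l‖ := by
    rw [norm_sub_rev]
    exact .trans (by linarith) (norm_sub_norm_le l s)
  have h3 : ‖s‖ ^ 2 ≤ r ^ 2 := pow_le_pow_left₀ (norm_nonneg _) hs.le 2
  calc ‖s‖ ^ 2 / (‖l‖ ^ 2 * ‖s - l‖) ≤ r ^ 2 / (‖l‖ ^ 2 * (‖l‖ / 2)) := by gcongr
    _ = 2 * r ^ 2 / ‖l‖ ^ 3 := by field
    _ = _ := by norm_cast

theorem hasSumLocallyUniformly_wZetaExcept (l₀ : ℂ) :
    HasSumLocallyUniformly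
      (fun (l : L.lattice) (z : ℂ) ↦ if l.1 = l₀ then 0 else (1 / (z - l) + 1 / l + z / (l : ℂ) ^ 2))
      (wZetaExcept L l₀) := by
  refine L.hasSumLocallyUniformly_aux (u := (2 * · ^ 2 * ‖·‖ ^ (-3 : ℝ))) _
    (fun _ _ ↦ (ZLattice.summable_norm_rpow _ _ (by simp; norm_num)).mul_left _) fun r hr ↦
    Filter.eventually_atTop.mpr ⟨2 * r, ?_⟩
  rintro _ h s hs l rfl
  split_ifs
  · simpa using! show 0 ≤ 2 * r ^ 2 * (‖↑l‖ ^ 3)⁻¹ by positivity
  · exact wZeta_bound r hr s hs l h

theorem hasSum_wZetaExcept (l₀ z : ℂ) :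
    HasSum (fun l : L.lattice ↦ if l.1 = l₀ then 0 else (1 / (z - l) + 1 / l + z / (l : ℂ) ^ 2))
      (wZetaExcept L l₀ z) :=
  (hasSumLocallyUniformly_wZetaExcept L l₀).hasSum

theorem differentiableOn_wZetaExcept (l₀ : ℂ) :
    DifferentiableOn ℂ (wZetaExcept L l₀) (L.lattice \ {l₀})ᶜ := by
  refine (hasSumLocallyUniformly_wZetaExcept L l₀).hasSumLocallyUniformlyOn.differentiableOn
    (.of_forall fun s ↦ .fun_sum fun i hi ↦ ?_) L.isOpen_compl_lattice_sdiff
  split_ifs
  · simp
  · exact .add (.add (.div (by fun_prop) (by fun_prop) (by aesop (add simp sub_eq_zero)))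
      (by fun_prop)) (by fun_prop)

theorem deriv_wZetaExcept (l₀ : ℂ) :
    Set.EqOn (deriv (wZetaExcept L l₀)) (fun z => - ℘[L - l₀] z) (L.lattice \ {l₀})ᶜ := by
  refine ((hasSumLocallyUniformly_wZetaExcept L l₀).tendstoLocallyUniformlyOn.deriv
    (.of_forall fun s ↦ ?_) L.isOpen_compl_lattice_sdiff).unique ?_
  · refine .fun_sum fun i hi ↦ ?_
    split_ifs
    · simp
    · exact .add (.add (.div (by fun_prop) (by fun_prop) (by aesop (add simp sub_eq_zero)))
        (by fun_prop)) (by fun_prop)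
  · have h1 := (L.hasSumLocallyUniformly_weierstrassPExcept l₀).tendstoLocallyUniformlyOn
      (s := (L.lattice \ {l₀} : Set ℂ)ᶜ)
    have h2 := h1.neg
    refine h2.congr ?_
    intro s l hl
    simp only [Function.comp_apply, Pi.neg_apply]
    rw [deriv_fun_sum]
    · rw [← Finset.sum_neg_distrib]
      congr with x
      split_ifs with hl₁
      · simp
      have hl₁ : l - x ≠ 0 := fun e ↦ hl₁ (by
        obtain rfl := sub_eq_zero.mp e
        simpa using hl)
      have h3 : HasDerivAt (fun z : ℂ => 1 / (z - x) + 1 / x + z / (x : ℂ) ^ 2)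
          (-(1 / (l - x) ^ 2 - 1 / (x : ℂ) ^ 2)) l := by
        have e1 : HasDerivAt (fun z : ℂ => z - x) 1 l := (hasDerivAt_id l).sub_const _
        have e2 := e1.inv hl₁
        have e3 : HasDerivAt (fun z : ℂ => z / (x : ℂ) ^ 2) (1 / (x : ℂ) ^ 2) l :=
          (hasDerivAt_id l).div_const _
        have e4 := (e2.add_const (1 / (x : ℂ))).add e3
        simp only [one_div] at e4 ⊢
        refine e4.congr_deriv ?_
        ring
      exact h3.deriv.symm
    · intros x hxs
      split_ifs with hl₁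
      · simp
      have hl₁ : l - x ≠ 0 := fun e ↦ hl₁ (by
        obtain rfl := sub_eq_zero.mp e
        simpa using hl)
      exact .add (.add (.div (by fun_prop) (by fun_prop) (by simpa)) (by fun_prop)) (by fun_prop)

theorem wZetaExcept_add (l₀ : L.lattice) (z : ℂ) :
    wZetaExcept L l₀ z + (1 / (z - l₀.1) + 1 / l₀.1 + z / l₀.1 ^ 2) = wZeta L z := by
  trans wZetaExcept L l₀ z +
    ∑' i : L.lattice, if i = l₀.1 then (1 / (z - l₀.1) + 1 / l₀.1 + z / l₀.1 ^ 2) else 0
  · simp
  rw [wZetaExcept, ← Summable.tsum_add, wZeta]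
  · congr with w; split_ifs <;> simp only [zero_add, add_zero, *]
  · exact ⟨_, hasSum_wZetaExcept L _ _⟩
  · exact summable_of_hasFiniteSupport ((Set.finite_singleton l₀).subset (by simp))

theorem wZetaExcept_of_notMem (l₀ : ℂ) (hl : l₀ ∉ L.lattice) :
    wZetaExcept L l₀ = wZeta L := by
  delta wZetaExcept wZeta
  congr! 3 with z l
  have : l.1 ≠ l₀ := by rintro rfl; simp at hl
  simp [this]

theorem hasSum_wZeta (z : ℂ) :
    HasSum (fun l : L.lattice ↦ (1 / (z - l) + 1 / l + z / (l : ℂ) ^ 2)) (wZeta L z) := by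
  have h := hasSum_wZetaExcept L (L.ω₁ / 2) z
  rw [wZetaExcept_of_notMem L _ L.ω₁_div_two_notMem_lattice] at h
  convert! h using 2 with l
  rw [if_neg]
  exact fun e ↦ L.ω₁_div_two_notMem_lattice (e ▸ l.2)

theorem differentiableOn_wZeta : DifferentiableOn ℂ (wZeta L) L.latticeᶜ := by
  rw [← wZetaExcept_of_notMem L _ L.ω₁_div_two_notMem_lattice]
  convert! differentiableOn_wZetaExcept L _
  simp [L.ω₁_div_two_notMem_lattice]

theorem analyticOnNhd_wZeta : AnalyticOnNhd ℂ (wZeta L) L.latticeᶜ :=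
  (differentiableOn_wZeta L).analyticOnNhd L.isClosed_lattice.isOpen_compl

theorem hasDerivAt_wZeta {z : ℂ} (hz : z ∉ L.lattice) : HasDerivAt (wZeta L) (-℘[L] z) z := by
  have h1 : DifferentiableAt ℂ (wZeta L) z :=
    (differentiableOn_wZeta L).differentiableAt (L.isClosed_lattice.isOpen_compl.mem_nhds hz)
  have h2 := h1.hasDerivAt
  have h3 := deriv_wZetaExcept L (L.ω₁ / 2) (x := z) (by simp [hz])
  rw [wZetaExcept_of_notMem L _ L.ω₁_div_two_notMem_lattice,
    L.weierstrassPExcept_of_notMem _ L.ω₁_div_two_notMem_lattice] at h3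
  rwa [h3] at h2

@[simp]
theorem wZeta_neg (z : ℂ) : wZeta L (-z) = - wZeta L z := by
  simp only [wZeta]
  rw [← (Equiv.neg L.lattice).tsum_eq, ← tsum_neg]
  congr with l
  simp only [Equiv.neg_apply, NegMemClass.coe_neg, sub_neg_eq_add, even_two, Even.neg_pow]
  rw [show -z + (l : ℂ) = -(z - l) by ring]
  rw [one_div_neg_eq_neg_one_div, one_div_neg_eq_neg_one_div]
  ring

@[simp]
theorem wZeta_zero : wZeta L 0 = 0 := by
  have := wZeta_neg L 0
  rw [neg_zero] at this
  exact CharZero.eq_neg_self_iff.mp this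

theorem analyticAt_wZetaExcept (l₀ : ℂ) : AnalyticAt ℂ (wZetaExcept L l₀) l₀ :=
  (differentiableOn_wZetaExcept L l₀).analyticOnNhd L.isOpen_compl_lattice_sdiff _ (by simp)

theorem meromorphicAt_wZeta (x : ℂ) : MeromorphicAt (wZeta L) x := by
  by_cases hx : x ∈ L.lattice
  · simp_rw [← funext <| wZetaExcept_add L ⟨x, hx⟩]
    have := (analyticAt_wZetaExcept L x).meromorphicAt
    fun_prop
  · exact (analyticOnNhd_wZeta L x hx).meromorphicAt

theorem isPreconnected_compl_lattice : IsPreconnected (L.lattice : Set ℂ)ᶜ := by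
  refine (Set.Countable.isConnected_compl_of_one_lt_rank (by simp) ?_).2
  exact countable_of_Lindelof_of_discrete (X := L.lattice)

theorem eventually_notMem_lattice (x : ℂ) : ∀ᶠ z in 𝓝[≠] x, z ∉ L.lattice := by
  filter_upwards [self_mem_nhdsWithin, mem_nhdsWithin_of_mem_nhds
    (L.compl_lattice_sdiff_singleton_mem_nhds x)] with z hz hz' hz''
  exact hz' ⟨hz'', hz⟩

/-- At a lattice point the junk value of `ζ` is the constant term of its Laurent expansion. -/
theorem tendsto_wZeta_sub (l : L.lattice) :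
    Tendsto (fun z => wZeta L z - 1 / (z - l)) (𝓝[≠] (l : ℂ)) (𝓝 (wZeta L l)) := by
  have h1 : ContinuousAt (fun z : ℂ => wZetaExcept L l z + (1 / l.1 + z / l.1 ^ 2)) (l : ℂ) :=
    ((analyticAt_wZetaExcept L l).continuousAt).add
      (continuousAt_const.add (continuousAt_id.div_const _))
  have h2 := h1.tendsto.mono_left (nhdsWithin_le_nhds (s := {(l : ℂ)}ᶜ))
  have h3 : wZetaExcept L l l + (1 / l.1 + (l : ℂ) / l.1 ^ 2) = wZeta L l := by
    rw [← wZetaExcept_add L l l, sub_self, div_zero, zero_add]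
  rw [h3] at h2
  refine h2.congr fun z => ?_
  rw [← wZetaExcept_add L l z]
  ring

theorem wZeta_add_aux (l : L.lattice) :
    ∃ c : ℂ, ∀ z, wZeta L (z + l) = wZeta L z + c := by
  have hmem : ∀ z, z + (l : ℂ) ∈ L.lattice ↔ z ∈ L.lattice := by
    intro z
    simpa using (L.lattice.toAddSubgroup.add_mem_cancel_right (y := z) l.2)
  set x₀ := L.ω₁ / 2 with hx₀
  have hx₀' : x₀ ∉ L.lattice := L.ω₁_div_two_notMem_lattice
  set c := wZeta L (x₀ + l) - wZeta L x₀ with hc
  have h1 : Set.EqOn (fun z => wZeta L (z + l)) (fun z => wZeta L z + c) (L.lattice : Set ℂ)ᶜ := by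
    refine IsOpen.eqOn_of_deriv_eq L.isClosed_lattice.isOpen_compl
      (isPreconnected_compl_lattice L) ?_ ?_ ?_ (x := x₀) hx₀' (by simp [hc])
    · refine (differentiableOn_wZeta L).comp (f := (· + (l : ℂ))) (by fun_prop) ?_
      intro z hz h
      exact hz ((hmem z).mp h)
    · exact (differentiableOn_wZeta L).add (by fun_prop)
    · intro z hz
      have hz' : z + (l : ℂ) ∉ L.lattice := fun h => hz ((hmem z).mp h)
      have e1 := (hasDerivAt_wZeta L hz').comp_add_const z (l : ℂ)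
      have e2 := (hasDerivAt_wZeta L hz).add_const c
      rw [e1.deriv, e2.deriv, L.weierstrassP_add_coe]
  refine ⟨c, fun z => ?_⟩
  by_cases hz : z ∈ L.lattice
  · have h2 := tendsto_wZeta_sub L ⟨z, hz⟩
    have h3 := tendsto_wZeta_sub L ⟨z + l, add_mem hz l.2⟩
    simp only at h2 h3
    have h4 : Tendsto (fun y : ℂ => y + (l : ℂ)) (𝓝[≠] z) (𝓝[≠] (z + l)) := by
      refine tendsto_nhdsWithin_of_tendsto_nhds_of_eventually_within _ ?_ ?_
      · exact ((continuous_add_const (l : ℂ)).tendsto z).mono_left nhdsWithin_le_nhds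
      · filter_upwards [self_mem_nhdsWithin] with y hy hy'
        exact hy (add_right_cancel hy')
    have h5 := h3.comp h4
    have h6 := h2.add_const c
    refine tendsto_nhds_unique (h5.congr' ?_) h6
    filter_upwards [eventually_notMem_lattice L z] with y hy
    simp only [Function.comp_apply]
    have := h1 (x := y) hy
    simp only at this
    rw [this]
    ring_nf
  · exact h1 hz

/-- Quasi-periodicity of `ζ` (valid also at the lattice points, thanks to the junk values).
The quasi-period attached to `l` is `wZeta L l`. -/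
theorem wZeta_add_coe (z : ℂ) (l : L.lattice) : wZeta L (z + l) = wZeta L z + wZeta L l := by
  obtain ⟨c, hc⟩ := wZeta_add_aux L l
  have h0 := hc 0
  rw [zero_add, wZeta_zero, zero_add] at h0
  rw [hc z, h0]

theorem wZeta_coe_add (l m : L.lattice) :
    wZeta L ((l : ℂ) + m) = wZeta L l + wZeta L m := wZeta_add_coe L l m

/-- The quasi-period of `l` is `2 ζ(l / 2)` if `l / 2` is not a lattice point. -/
theorem wZeta_coe_eq_two_mul (l : L.lattice) : wZeta L l = 2 * wZeta L ((l : ℂ) / 2) := by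
  have h := wZeta_add_coe L (-((l : ℂ) / 2)) l
  rw [wZeta_neg, show -((l : ℂ) / 2) + l = (l : ℂ) / 2 by ring] at h
  linear_combination -h

/-- A meromorphic `L`-periodic function without poles is constant. -/
theorem elliptic_const {h : ℂ → ℂ} (hm : ∀ x, MeromorphicAt h x)
    (ho : ∀ x, 0 ≤ meromorphicOrderAt h x) (hp : ∀ l ∈ L.lattice, ∀ z, h (z + l) = h z) :
    ∃ c, ∀ x, (∀ᶠ y in 𝓝[≠] x, h y = c) ∧ (ContinuousAt h x → h x = c) := by
  have hm' : MeromorphicOn h Set.univ := fun x _ => hm x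
  set g := toMeromorphicNFOn h Set.univ with hg
  have hgh : ∀ x, h =ᶠ[𝓝[≠] x] g := fun x =>
    (hm'.toMeromorphicNFOn_eq_self_on_nhdsNE (Set.mem_univ x)).symm
  have hga : ∀ x, AnalyticAt ℂ g x := by
    intro x
    have h1 : MeromorphicNFAt g x := meromorphicNFOn_toMeromorphicNFOn h Set.univ (Set.mem_univ x)
    rw [← h1.meromorphicOrderAt_nonneg_iff_analyticAt, ← meromorphicOrderAt_congr (hgh x)]
    exact ho x
  have hglim : ∀ x, Tendsto h (𝓝[≠] x) (𝓝 (g x)) := fun x =>
    ((hga x).continuousAt.tendsto.mono_left nhdsWithin_le_nhds).congr' (hgh x).symm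
  have hgper : ∀ z l, l ∈ L.lattice → g (z + l) = g z := by
    intro z l hl
    have h4 : Tendsto (fun y : ℂ => y + l) (𝓝[≠] z) (𝓝[≠] (z + l)) := by
      refine tendsto_nhdsWithin_of_tendsto_nhds_of_eventually_within _ ?_ ?_
      · exact ((continuous_add_const l).tendsto z).mono_left nhdsWithin_le_nhds
      · filter_upwards [self_mem_nhdsWithin] with y hy hy'
        exact hy (add_right_cancel hy')
    have h5 := (hglim (z + l)).comp h4
    refine tendsto_nhds_unique h5 ((hglim z).congr fun y => ?_)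
    rw [Function.comp_apply, hp l hl y]
  have hgd : Differentiable ℂ g := fun x => (hga x).differentiableAt
  have hconst : ∀ x, g x = g 0 := fun x =>
    hgd.apply_eq_apply_of_bounded (IsZLattice.isCompact_range_of_periodic L.lattice _
      hgd.continuous fun z w hw ↦ hgper z w hw).isBounded x 0
  refine ⟨g 0, fun x => ⟨?_, fun hc => ?_⟩⟩
  · filter_upwards [hgh x] with y hy
    rw [hy, hconst y]
  · have := tendsto_nhds_unique (hc.tendsto.mono_left nhdsWithin_le_nhds) (hglim x)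
    rw [this, hconst x]

end Pool.Agent.Lib.MP_4b482e_nt
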