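import Mathlib
import Pool.Agent.Lib.MP_4b482e_nt.Zeta

/-!
# The Weierstrass zeta function: difference formula and complex multiplication by `i`
-/

open Module Filter Topology PeriodPair

noncomputable section

namespace Pool.Agent.Lib.MP_4b482e_nt

variable (L : PeriodPair)

theorem order_inv_sub (x : ℂ) : meromorphicOrderAt (fun z : ℂ => 1 / (z - x)) x = -1 := by
  have h : (fun z : ℂ => 1 / (z - x)) = ((· - x) : ℂ → ℂ) ^ (-1 : ℤ) := by
    funext z; simp
  rw [h, meromorphicOrderAt_zpow_id_sub_const]
  rfl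

theorem neg_one_le_zero' : (-1 : WithTop ℤ) ≤ 0 :=
  WithTop.coe_le_coe.mpr (by norm_num : (-1 : ℤ) ≤ 0)

theorem order_wZeta_ge (x : ℂ) : -1 ≤ meromorphicOrderAt (wZeta L) x := by
  by_cases hx : x ∈ L.lattice
  · have h1 : wZeta L = (fun z => 1 / (z - x)) +
        (fun z => wZetaExcept L x z + (1 / x + z / x ^ 2)) := by
      funext z
      rw [← wZetaExcept_add L ⟨x, hx⟩ z]
      simp only [Pi.add_apply]
      ring
    have h2 : AnalyticAt ℂ (fun z => wZetaExcept L x z + (1 / x + z / x ^ 2)) x := by
      have := analyticAt_wZetaExcept L x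
      refine this.add (analyticAt_const.add ?_)
      simp only [div_eq_mul_inv]
      fun_prop
    rw [h1]
    refine le_trans ?_ (meromorphicOrderAt_add (by fun_prop) h2.meromorphicAt)
    rw [order_inv_sub]
    refine le_min le_rfl (le_trans ?_ h2.meromorphicOrderAt_nonneg)
    exact neg_one_le_zero'
  · exact le_trans neg_one_le_zero'
      (analyticOnNhd_wZeta L x hx).meromorphicOrderAt_nonneg

theorem mem_lattice_add_iff {z l : ℂ} (hl : l ∈ L.lattice) : z + l ∈ L.lattice ↔ z ∈ L.lattice := by
  simpa using (L.lattice.toAddSubgroup.add_mem_cancel_right (y := z) hl)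

theorem mem_lattice_sub_iff {z l : ℂ} (hl : l ∈ L.lattice) : z - l ∈ L.lattice ↔ z ∈ L.lattice := by
  rw [← mem_lattice_add_iff L hl, sub_add_cancel]

/-- The combination `ζ(z + w) + ζ(z - w) - 2 ζ(z)`. -/
def zetaComb (w z : ℂ) : ℂ := wZeta L (z + w) + wZeta L (z - w) - 2 * wZeta L z

/-- The function shown to vanish in the proof of the difference formula. -/
def zetaRel (w z : ℂ) : ℂ := (℘[L] z - ℘[L] w) * zetaComb L w z - ℘'[L] z

theorem meromorphicAt_zetaComb (w x : ℂ) : MeromorphicAt (zetaComb L w) x := by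
  have h1 : MeromorphicAt (fun z => wZeta L (z + w)) x :=
    (meromorphicAt_wZeta L (x + w)).comp_analyticAt (g := fun z => z + w) (by fun_prop)
  have h2 : MeromorphicAt (fun z => wZeta L (z - w)) x :=
    (meromorphicAt_wZeta L (x - w)).comp_analyticAt (g := fun z => z - w) (by fun_prop)
  have h3 := meromorphicAt_wZeta L x
  unfold zetaComb
  fun_prop

theorem meromorphicAt_zetaRel (w x : ℂ) : MeromorphicAt (zetaRel L w) x := by
  have h1 := meromorphicAt_zetaComb L w x
  have h2 := L.meromorphic_weierstrassP x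
  have h3 := L.meromorphic_derivWeierstrassP x
  unfold zetaRel
  fun_prop

theorem zetaComb_add_coe (w z : ℂ) (l : L.lattice) : zetaComb L w (z + l) = zetaComb L w z := by
  unfold zetaComb
  rw [show z + (l : ℂ) + w = (z + w) + l by ring, show z + (l : ℂ) - w = (z - w) + l by ring,
    wZeta_add_coe, wZeta_add_coe, wZeta_add_coe]
  ring

theorem zetaRel_add_coe (w z : ℂ) (l : L.lattice) : zetaRel L w (z + l) = zetaRel L w z := by
  unfold zetaRel
  rw [zetaComb_add_coe, L.weierstrassP_add_coe, L.derivWeierstrassP_add_coe]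

theorem analyticAt_zetaComb {w x : ℂ} (hx : x ∉ L.lattice) (h1 : x + w ∉ L.lattice)
    (h2 : x - w ∉ L.lattice) : AnalyticAt ℂ (zetaComb L w) x := by
  have e1 : AnalyticAt ℂ (fun z => wZeta L (z + w)) x :=
    (analyticOnNhd_wZeta L (x + w) h1).fun_comp (f := fun z => z + w) (by fun_prop)
  have e2 : AnalyticAt ℂ (fun z => wZeta L (z - w)) x :=
    (analyticOnNhd_wZeta L (x - w) h2).fun_comp (f := fun z => z - w) (by fun_prop)
  have e3 := analyticOnNhd_wZeta L x hx
  unfold zetaComb
  fun_prop

theorem order_zetaComb_ge (w x : ℂ) : -1 ≤ meromorphicOrderAt (zetaComb L w) x := by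
  have h1 : MeromorphicAt (fun z => wZeta L (z + w)) x :=
    (meromorphicAt_wZeta L (x + w)).comp_analyticAt (g := fun z => z + w) (by fun_prop)
  have h2 : MeromorphicAt (fun z => wZeta L (z - w)) x :=
    (meromorphicAt_wZeta L (x - w)).comp_analyticAt (g := fun z => z - w) (by fun_prop)
  have h3 : MeromorphicAt (fun z => (-2 : ℂ) * wZeta L z) x := by
    have := meromorphicAt_wZeta L x
    fun_prop
  have o1 : -1 ≤ meromorphicOrderAt (fun z => wZeta L (z + w)) x := by
    have := meromorphicOrderAt_comp_add_const_eq_meromorphicOrderAt (x := x) (c := w) (f := wZeta L)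
    rw [Function.comp_def] at this
    rw [this]
    exact order_wZeta_ge L _
  have o2 : -1 ≤ meromorphicOrderAt (fun z => wZeta L (z - w)) x := by
    have := meromorphicOrderAt_comp_sub_const_eq_meromorphicOrderAt (x := x) (c := w) (f := wZeta L)
    rw [Function.comp_def] at this
    rw [this]
    exact order_wZeta_ge L _
  have o3 : -1 ≤ meromorphicOrderAt (fun z => (-2 : ℂ) * wZeta L z) x := by
    have := meromorphicOrderAt_mul (f := fun _ => (-2 : ℂ)) (g := wZeta L) (x := x)
      (by fun_prop) (meromorphicAt_wZeta L x)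
    have h4 : (fun z => (-2 : ℂ) * wZeta L z) = (fun _ => (-2 : ℂ)) * wZeta L := rfl
    rw [h4, this]
    have h5 : meromorphicOrderAt (fun _ : ℂ => (-2 : ℂ)) x = 0 := by
      rw [meromorphicOrderAt_const]; simp
    rw [h5, zero_add]
    exact order_wZeta_ge L _
  have h4 : zetaComb L w = ((fun z => wZeta L (z + w)) + fun z => wZeta L (z - w)) +
      fun z => (-2 : ℂ) * wZeta L z := by
    funext z
    simp only [zetaComb, Pi.add_apply]
    ring
  rw [h4]
  refine le_trans (le_min ?_ o3) (meromorphicOrderAt_add (h1.add h2) h3)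
  exact le_trans (le_min o1 o2) (meromorphicOrderAt_add h1 h2)

theorem order_zetaRel_of_notMem {w x : ℂ} (hx : x ∉ L.lattice) :
    0 ≤ meromorphicOrderAt (zetaRel L w) x := by
  have hP := L.analyticOnNhd_weierstrassP x hx
  have hP' := L.analyticOnNhd_derivWeierstrassP x hx
  have hA : AnalyticAt ℂ (fun z => ℘[L] z - ℘[L] w) x := by fun_prop
  have h1 : zetaRel L w = ((fun z => ℘[L] z - ℘[L] w) * zetaComb L w) + fun z => - ℘'[L] z := by
    funext z
    simp only [zetaRel, Pi.add_apply, Pi.mul_apply]
    ring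
  have hB : AnalyticAt ℂ (fun z => - ℘'[L] z) x := by fun_prop
  have hC := meromorphicAt_zetaComb L w x
  rw [h1]
  refine le_trans (le_min ?_ hB.meromorphicOrderAt_nonneg)
    (meromorphicOrderAt_add (hA.meromorphicAt.mul hC) hB.meromorphicAt)
  rw [meromorphicOrderAt_mul hA.meromorphicAt hC]
  by_cases hcase : x + w ∈ L.lattice ∨ x - w ∈ L.lattice
  · have hval : ℘[L] x - ℘[L] w = 0 := by
      rcases hcase with h | h
      · have := L.weierstrassP_sub_coe x ⟨x + w, h⟩
        simp only at this
        rw [← this, show x - (x + w) = -w by ring, L.weierstrassP_neg, sub_self]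
      · have := L.weierstrassP_sub_coe x ⟨x - w, h⟩
        simp only at this
        rw [← this, show x - (x - w) = w by ring, sub_self]
    have hord : 1 ≤ meromorphicOrderAt (fun z => ℘[L] z - ℘[L] w) x := by
      rw [hA.meromorphicOrderAt_eq]
      have h2 : ((1 : ℕ) : ℕ∞) ≤ analyticOrderAt (fun z => ℘[L] z - ℘[L] w) x := by
        rw [natCast_le_analyticOrderAt_iff_iteratedDeriv_eq_zero hA]
        intro i hi
        have : i = 0 := by omega
        subst this
        simpa using hval
      have h3 := ENat.monotone_map_iff.mpr (Nat.mono_cast (α := ℤ)) h2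
      simpa using h3
    have h3 := order_zetaComb_ge L w x
    have h4 := add_le_add hord h3
    refine le_trans (le_of_eq ?_) h4
    rfl
  · push Not at hcase
    have h2 := analyticAt_zetaComb L hx hcase.1 hcase.2
    exact add_nonneg hA.meromorphicOrderAt_nonneg h2.meromorphicOrderAt_nonneg

set_option maxHeartbeats 1000000 in
theorem order_zetaRel_zero {w : ℂ} (hw : w ∉ L.lattice) :
    0 ≤ meromorphicOrderAt (zetaRel L w) 0 := by
  -- notation
  have hPe := L.analyticAt_weierstrassPExcept 0
  have hP'e := L.analyticAt_derivWeierstrassPExcept 0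
  have hze := analyticAt_wZetaExcept L 0
  have hS1 : AnalyticAt ℂ (fun z => wZeta L (z + w)) 0 :=
    AnalyticAt.fun_comp (f := fun z => z + w)
      (analyticOnNhd_wZeta L (0 + w) (by simpa using hw)) (by fun_prop)
  have hS2 : AnalyticAt ℂ (fun z => wZeta L (z - w)) 0 :=
    AnalyticAt.fun_comp (f := fun z => z - w)
      (analyticOnNhd_wZeta L (0 - w) (by simpa using hw)) (by fun_prop)
  set K : ℂ → ℂ := fun z => wZeta L (z + w) + wZeta L (z - w) - 2 * wZetaExcept L 0 z with hK
  have hKa : AnalyticAt ℂ K 0 := by fun_prop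
  set N : ℂ → ℂ := fun z => K z - 2 * z * (℘[L - (0 : ℂ)] z - ℘[L] w) with hN
  have hNa : AnalyticAt ℂ N 0 := by fun_prop
  have hze0 : wZetaExcept L 0 0 = 0 := by
    have := wZetaExcept_add L 0 0
    simpa using this
  have hN0 : N 0 = 0 := by
    simp only [hN, hK, zero_add, zero_sub, wZeta_neg, hze0]
    ring
  have hN1 : deriv N 0 = 0 := by
    have d1 : HasDerivAt (fun z => wZeta L (z + w)) (-℘[L] w) 0 := by
      have := (hasDerivAt_wZeta L (z := 0 + w) (by simpa using hw)).comp_add_const 0 w
      simpa using this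
    have d2 : HasDerivAt (fun z => wZeta L (z - w)) (-℘[L] w) 0 := by
      have := (hasDerivAt_wZeta L (z := 0 - w) (by simpa using hw)).comp_sub_const 0 w
      simpa using this
    have d3 : HasDerivAt (wZetaExcept L 0) (-℘[L - (0 : ℂ)] 0) 0 := by
      have h1 := hze.differentiableAt.hasDerivAt
      have h2 := deriv_wZetaExcept L 0 (x := 0) (by simp)
      rwa [h2] at h1
    rw [L.weierstrassPExcept_zero, neg_zero] at d3
    have d4 : HasDerivAt (fun z : ℂ => 2 * z * (℘[L - (0 : ℂ)] z - ℘[L] w)) (-2 * ℘[L] w) 0 := by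
      have e1 : HasDerivAt (fun z : ℂ => 2 * z) 2 0 := by
        simpa using (hasDerivAt_id (0 : ℂ)).const_mul 2
      have e2 := e1.mul (hPe.differentiableAt.hasDerivAt.sub_const (℘[L] w))
      refine e2.congr_deriv ?_
      simp
    have d5 := ((d1.add d2).sub (d3.const_mul 2)).sub d4
    have d6 : HasDerivAt N 0 0 := by
      refine d5.congr_deriv ?_
      ring
    exact d6.deriv
  obtain ⟨g, hga, hg⟩ := (natCast_le_analyticOrderAt hNa (n := 2)).mp (by
    rw [natCast_le_analyticOrderAt_iff_iteratedDeriv_eq_zero hNa]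
    intro i hi
    interval_cases i
    · simpa using hN0
    · simpa [iteratedDeriv_one] using hN1)
  have hfin : AnalyticAt ℂ (fun z => (℘[L - (0 : ℂ)] z - ℘[L] w) * K z - ℘'[L - (0 : ℂ)] z + g z) 0 := by
    fun_prop
  have heq : zetaRel L w =ᶠ[𝓝[≠] 0]
      (fun z => (℘[L - (0 : ℂ)] z - ℘[L] w) * K z - ℘'[L - (0 : ℂ)] z + g z) := by
    filter_upwards [self_mem_nhdsWithin, mem_nhdsWithin_of_mem_nhds hg] with z hz hgz
    have hz0 : z ≠ 0 := hz
    have hgz' : g z = N z / z ^ 2 := by
      rw [hgz]
      simp only [sub_zero, smul_eq_mul]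
      field_simp
    have p1 := L.weierstrassPExcept_def 0 z
    have p2 := L.derivWeierstrassPExcept_def 0 z
    have p3 := wZetaExcept_add L 0 z
    simp only [Submodule.coe_zero, sub_zero, ne_eq, OfNat.ofNat_ne_zero, not_false_eq_true,
      zero_pow, div_zero, zero_sub, add_zero] at p1 p2 p3
    rw [hgz']
    simp only [zetaRel, zetaComb, hN, hK]
    rw [← p3, p1, p2]
    field_simp
    ring
  rw [meromorphicOrderAt_congr heq]
  exact hfin.meromorphicOrderAt_nonneg

/-- **Difference formula**: `(℘(z) - ℘(w)) (ζ(z + w) + ζ(z - w) - 2 ζ(z)) = ℘'(z)`. -/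
theorem zeta_difference {w z : ℂ} (hw : w ∉ L.lattice) (hz : z ∉ L.lattice)
    (h1 : z + w ∉ L.lattice) (h2 : z - w ∉ L.lattice) :
    (℘[L] z - ℘[L] w) * (wZeta L (z + w) + wZeta L (z - w) - 2 * wZeta L z) = ℘'[L] z := by
  have horder : ∀ x, 0 ≤ meromorphicOrderAt (zetaRel L w) x := by
    intro x
    by_cases hx : x ∈ L.lattice
    · have h3 := meromorphicOrderAt_comp_add_const_eq_meromorphicOrderAt (x := 0) (c := x)
        (f := zetaRel L w)
      rw [zero_add] at h3
      rw [← h3]
      have h4 : zetaRel L w ∘ (fun y => y + x) = zetaRel L w := by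
        funext y
        exact zetaRel_add_coe L w y ⟨x, hx⟩
      rw [h4]
      exact order_zetaRel_zero L hw
    · exact order_zetaRel_of_notMem L hx
  obtain ⟨c, hc⟩ := elliptic_const L (fun x => meromorphicAt_zetaRel L w x) horder
    (fun l hl z => zetaRel_add_coe L w z ⟨l, hl⟩)
  have hcont : ∀ y, y ∉ L.lattice → y + w ∉ L.lattice → y - w ∉ L.lattice →
      zetaRel L w y = c := by
    intro y hy hy1 hy2
    refine (hc y).2 ?_
    have e1 := analyticAt_zetaComb L hy hy1 hy2
    have e2 := L.analyticOnNhd_weierstrassP y hy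
    have e3 := L.analyticOnNhd_derivWeierstrassP y hy
    have : AnalyticAt ℂ (zetaRel L w) y := by
      unfold zetaRel
      fun_prop
    exact this.continuousAt
  have hodd : ∀ y, zetaRel L w (-y) = - zetaRel L w y := by
    intro y
    simp only [zetaRel, zetaComb, L.weierstrassP_neg, L.derivWeierstrassP_neg]
    rw [show -y + w = -(y - w) by ring, show -y - w = -(y + w) by ring, wZeta_neg, wZeta_neg,
      wZeta_neg]
    ring
  have c1 := hcont z hz h1 h2
  have c2 := hcont (-z) (fun h => hz (by simpa using neg_mem h))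
    (fun h => h2 (by simpa [add_comm, sub_eq_add_neg] using neg_mem h))
    (fun h => h1 (by simpa [add_comm, sub_eq_add_neg] using neg_mem h))
  rw [hodd, c1] at c2
  have c0 : c = 0 := by
    have : (2 : ℂ) * c = 0 := by linear_combination -c2
    simpa using this
  rw [c0] at c1
  simp only [zetaRel, zetaComb] at c1
  linear_combination c1

end Pool.Agent.Lib.MP_4b482e_nt
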