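import Mathlib
import Pool.Agent.Lib.MP_4b482e_nt.Zeta2
import Pool.Agent.Lib.MP_4b482e_nt.MulFormula

/-!
# The zeta function of a lattice stable under `i`, and non-vanishing of the quasi-periods
-/

open Module Filter Topology PeriodPair Complex

noncomputable section

namespace Pool.Agent.Lib.MP_4b482e_nt

variable (L : PeriodPair)

/-! ### The quasi-periods are not all zero -/

/-- The function `ζ² - ℘`. -/
def zetaSq (z : ℂ) : ℂ := wZeta L z ^ 2 - ℘[L] z

theorem wZetaExcept_zero_zero : wZetaExcept L 0 0 = 0 := by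
  have := wZetaExcept_add L 0 0
  simpa using this

theorem meromorphicAt_zetaSq (x : ℂ) : MeromorphicAt (zetaSq L) x := by
  have h1 := meromorphicAt_wZeta L x
  have h2 := L.meromorphic_weierstrassP x
  unfold zetaSq
  fun_prop

theorem order_zetaSq_zero : 0 ≤ meromorphicOrderAt (zetaSq L) 0 := by
  have hPe := L.analyticAt_weierstrassPExcept 0
  have hze := analyticAt_wZetaExcept L 0
  obtain ⟨g, hga, hg⟩ := (natCast_le_analyticOrderAt hze (n := 1)).mp (by
    rw [natCast_le_analyticOrderAt_iff_iteratedDeriv_eq_zero hze]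
    intro i hi
    have : i = 0 := by omega
    subst this
    simpa using wZetaExcept_zero_zero L)
  have hfin : AnalyticAt ℂ (fun z => 2 * g z + wZetaExcept L 0 z ^ 2 - ℘[L - (0 : ℂ)] z) 0 := by
    fun_prop
  have heq : zetaSq L =ᶠ[𝓝[≠] 0]
      (fun z => 2 * g z + wZetaExcept L 0 z ^ 2 - ℘[L - (0 : ℂ)] z) := by
    filter_upwards [self_mem_nhdsWithin, mem_nhdsWithin_of_mem_nhds hg] with z hz hgz
    have hz0 : z ≠ 0 := hz
    have hgz' : g z = wZetaExcept L 0 z / z := by
      rw [hgz]
      simp only [sub_zero, smul_eq_mul, pow_one]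
      field_simp
    have p1 := L.weierstrassPExcept_def 0 z
    have p3 := wZetaExcept_add L 0 z
    simp only [Submodule.coe_zero, sub_zero, ne_eq, OfNat.ofNat_ne_zero, not_false_eq_true,
      zero_pow, div_zero, zero_sub, add_zero] at p1 p3
    rw [hgz']
    simp only [zetaSq]
    rw [← p3, p1]
    field_simp
    ring
  rw [meromorphicOrderAt_congr heq]
  exact hfin.meromorphicOrderAt_nonneg

theorem g₂_eq_zero_of_quasiperiods (h : ∀ l ∈ L.lattice, wZeta L l = 0) :
    L.g₂ = 0 ∧ L.g₃ = 0 := by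
  have hper : ∀ l ∈ L.lattice, ∀ z, zetaSq L (z + l) = zetaSq L z := by
    intro l hl z
    have h1 := wZeta_add_coe L z ⟨l, hl⟩
    have h2 := L.weierstrassP_add_coe z ⟨l, hl⟩
    simp only at h1 h2
    simp only [zetaSq]
    rw [h1, h2, h l hl, add_zero]
  have horder : ∀ x, 0 ≤ meromorphicOrderAt (zetaSq L) x := by
    intro x
    by_cases hx : x ∈ L.lattice
    · have h3 := meromorphicOrderAt_comp_add_const_eq_meromorphicOrderAt (x := 0) (c := x)
        (f := zetaSq L)
      rw [zero_add] at h3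
      rw [← h3]
      have h4 : zetaSq L ∘ (fun y => y + x) = zetaSq L := by
        funext y
        exact hper x hx y
      rw [h4]
      exact order_zetaSq_zero L
    · have e1 := analyticOnNhd_wZeta L x hx
      have e2 := L.analyticOnNhd_weierstrassP x hx
      have : AnalyticAt ℂ (zetaSq L) x := by
        unfold zetaSq
        fun_prop
      exact this.meromorphicOrderAt_nonneg
  obtain ⟨c, hc⟩ := elliptic_const L (fun x => meromorphicAt_zetaSq L x) horder hper
  have hval : ∀ z, z ∉ L.lattice → wZeta L z ^ 2 - ℘[L] z = c := by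
    intro x hx
    refine (hc x).2 ?_
    have e1 := analyticOnNhd_wZeta L x hx
    have e2 := L.analyticOnNhd_weierstrassP x hx
    have : AnalyticAt ℂ (zetaSq L) x := by
      unfold zetaSq
      fun_prop
    exact this.continuousAt
  have hopen : IsOpen ((L.lattice : Set ℂ)ᶜ) := L.isClosed_lattice.isOpen_compl
  have hder : ∀ z, z ∉ L.lattice → ℘'[L] z = -2 * wZeta L z * ℘[L] z := by
    intro z hz
    have e1 := hasDerivAt_wZeta L hz
    have e2 : HasDerivAt ℘[L] (℘'[L] z) z := by
      have := (L.analyticOnNhd_weierstrassP z hz).differentiableAt.hasDerivAt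
      rwa [L.deriv_weierstrassP] at this
    have e3 := (e1.pow 2).sub e2
    have e4 : (fun z => wZeta L z ^ 2 - ℘[L] z) =ᶠ[𝓝 z] fun _ => c := by
      filter_upwards [hopen.mem_nhds hz] with y hy using hval y hy
    have e5 := e3.unique ((hasDerivAt_const z c).congr_of_eventuallyEq e4)
    simp only [Nat.cast_ofNat] at e5
    linear_combination -e5
  have hpoly : ∀ X : ℂ, 4 * c * X ^ 2 + L.g₂ * X + L.g₃ = 0 := by
    intro X
    obtain ⟨z, hz, rfl⟩ := weierstrassP_surjective L X
    have e1 := hder z hz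
    have e2 := L.derivWeierstrassP_sq z hz
    have e3 := hval z hz
    rw [e1] at e2
    linear_combination (-4 * ℘[L] z ^ 2) * e3 + e2
  have p0 := hpoly 0
  have p1 := hpoly 1
  have p2 := hpoly (-1)
  constructor
  · linear_combination (p1 - p2) / 2
  · linear_combination p0

theorem exists_quasiperiod_ne_zero : ∃ l ∈ L.lattice, wZeta L l ≠ 0 := by
  by_contra h
  push Not at h
  obtain ⟨h2, h3⟩ := g₂_eq_zero_of_quasiperiods L h
  exact g_ne L h2 h3

/-- The quasi-period homomorphism. -/
def etaHom : L.lattice →+ ℂ where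
  toFun l := wZeta L l
  map_zero' := by simp [wZeta_zero L]
  map_add' l m := wZeta_coe_add L l m

theorem etaHom_apply (l : L.lattice) : etaHom L l = wZeta L l := rfl

/-- The quasi-periods are integer combinations of the two basic ones. -/
theorem wZeta_int_comb (m n : ℤ) :
    wZeta L (m * L.ω₁ + n * L.ω₂) = m * wZeta L L.ω₁ + n * wZeta L L.ω₂ := by
  have h1 := map_add (etaHom L) (m • (⟨L.ω₁, L.ω₁_mem_lattice⟩ : L.lattice))
    (n • (⟨L.ω₂, L.ω₂_mem_lattice⟩ : L.lattice))
  rw [map_zsmul, map_zsmul] at h1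
  simpa [etaHom_apply] using h1

section CM

variable (hi : ∀ l ∈ L.lattice, I * l ∈ L.lattice)

include hi

theorem I_mul_mem_iff {z : ℂ} : I * z ∈ L.lattice ↔ z ∈ L.lattice := by
  refine ⟨fun h => ?_, fun h => hi z h⟩
  have h1 := hi _ (hi _ (hi _ h))
  have h2 : I * (I * (I * (I * z))) = z := by
    have := I_mul_I
    linear_combination (I * I * z - z) * this
  rwa [h2] at h1

theorem wZeta_I_mul (z : ℂ) : wZeta L (I * z) = -I * wZeta L z := by
  simp only [wZeta]
  rw [← (mulI L hi).tsum_eq, ← tsum_mul_left]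
  congr with l
  have h1 : (mulI L hi l : ℂ) = I * l := rfl
  rw [h1, ← mul_sub, mul_pow, I_sq]
  simp only [mul_inv, inv_I, div_eq_mul_inv]
  rw [show ((-1 : ℂ))⁻¹ = -1 by norm_num]
  ring

theorem one_add_I_mul_mem {z : ℂ} (h : z ∈ L.lattice) : (1 + I) * z ∈ L.lattice := by
  have : (1 + I) * z = z + I * z := by ring
  rw [this]
  exact add_mem h (hi z h)

theorem one_add_I_mul_notMem {z : ℂ} (hz : (1 + I) * z ∉ L.lattice) : z ∉ L.lattice :=
  fun h => hz (one_add_I_mul_mem L hi h)

/-- `ζ((1 + i) z)` in terms of `ζ(z)`. -/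
theorem wZeta_one_add_I {z : ℂ} (hz : (1 + I) * z ∉ L.lattice) :
    2 * ℘[L] z * ((1 + I) * wZeta L ((1 + I) * z) - 2 * wZeta L z) = ℘'[L] z := by
  have hz0 := one_add_I_mul_notMem L hi hz
  have hIz : I * z ∉ L.lattice := fun h => hz0 ((I_mul_mem_iff L hi).mp h)
  have e1 : z + I * z = (1 + I) * z := by ring
  have e2 : z - I * z = -(I * ((1 + I) * z)) := by
    have := I_mul_I
    linear_combination z * this
  have h1 : z + I * z ∉ L.lattice := by rwa [e1]
  have h2 : z - I * z ∉ L.lattice := by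
    rw [e2]
    intro h
    exact hz ((I_mul_mem_iff L hi).mp (by simpa using neg_mem h))
  have h3 := zeta_difference L hIz hz0 h1 h2
  rw [weierstrassP_I_mul L hi, e1, e2, wZeta_neg, wZeta_I_mul L hi] at h3
  rw [← h3]
  ring

/-- On a lattice `(ω, i ω)` the quasi-period of `ω` is not zero. -/
theorem wZeta_ω₁_ne_zero (hω : L.ω₂ = I * L.ω₁) : wZeta L L.ω₁ ≠ 0 := by
  intro h
  have h2 : wZeta L L.ω₂ = 0 := by rw [hω, wZeta_I_mul L hi, h, mul_zero]
  obtain ⟨l, hl, hne⟩ := exists_quasiperiod_ne_zero L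
  obtain ⟨m, n, hmn⟩ := L.mem_lattice.mp hl
  rw [← hmn, wZeta_int_comb, h, h2] at hne
  simp at hne

end CM

end Pool.Agent.Lib.MP_4b482e_nt
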