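import Mathlib
import Pool.Agent.Lib.MP_4b482e_nt.Zeta3

/-!
# `σ((1 + i) z)² = 2 i ℘(z) σ(z)⁴` on the square lattice with `g₂ = 4`
-/

open Module Filter Topology PeriodPair Complex

noncomputable section

namespace Pool.Agent.Lib.MP_4b482e_nt

variable (L : PeriodPair)

theorem weierstrassP_ne_zero_of (hi : ∀ l ∈ L.lattice, I * l ∈ L.lattice) (hg2 : L.g₂ = 4)
    (hg3 : L.g₃ = 0) {z : ℂ} (hz : (1 + I) * z ∉ L.lattice) : ℘[L] z ≠ 0 := by
  intro h
  have := weierstrassP_one_add_I L hi hg2 hg3 z hz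
  rw [h] at this
  norm_num at this

theorem tendsto_sq_mul_weierstrassP :
    Tendsto (fun z => z ^ 2 * ℘[L] z) (𝓝[≠] 0) (𝓝 1) := by
  have hPe := L.analyticAt_weierstrassPExcept 0
  have h1 : Tendsto (fun z => z ^ 2 * ℘[L - (0 : ℂ)] z + 1) (𝓝[≠] 0) (𝓝 1) := by
    have : ContinuousAt (fun z => z ^ 2 * ℘[L - (0 : ℂ)] z + 1) 0 := by
      have := hPe.continuousAt
      fun_prop
    have h2 := this.tendsto
    simp only [ne_eq, OfNat.ofNat_ne_zero, not_false_eq_true, zero_pow, zero_mul, zero_add] at h2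
    exact h2.mono_left nhdsWithin_le_nhds
  refine h1.congr' ?_
  filter_upwards [self_mem_nhdsWithin] with z hz
  have hz0 : z ≠ 0 := hz
  have p1 := L.weierstrassPExcept_def 0 z
  simp only [Submodule.coe_zero, sub_zero, ne_eq, OfNat.ofNat_ne_zero, not_false_eq_true,
    zero_pow, div_zero] at p1
  rw [p1]
  field_simp
  ring

/-- The multiplication formula for any entire function with logarithmic derivative `ζ`. -/
theorem sigma_one_add_I (hi : ∀ l ∈ L.lattice, I * l ∈ L.lattice) (hg2 : L.g₂ = 4)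
    (hg3 : L.g₃ = 0) (s : ℂ → ℂ) (hs : Differentiable ℂ s)
    (hzero : ∀ z, s z = 0 ↔ z ∈ L.lattice)
    (hlog : ∀ z, z ∉ L.lattice → logDeriv s z = wZeta L z)
    (hlim : Tendsto (fun z => s z / z) (𝓝[≠] 0) (𝓝 1)) (z : ℂ) :
    s ((1 + I) * z) ^ 2 = 2 * I * ℘[L] z * s z ^ 4 := by
  set U : Set ℂ := {y | (1 + I) * y ∉ L.lattice} with hU
  have hUo : IsOpen U := by
    have : U = (fun y => (1 + I) * y) ⁻¹' (L.lattice : Set ℂ)ᶜ := rfl
    rw [this]
    exact L.isClosed_lattice.isOpen_compl.preimage (by fun_prop)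
  have hinj : Function.Injective (fun y : ℂ => (1 + I) * y) := fun a b hab =>
    mul_left_cancel₀ one_add_I_ne hab
  have hUc : IsPreconnected U := by
    have h1 : (L.lattice : Set ℂ).Countable := countable_of_Lindelof_of_discrete (X := L.lattice)
    have h2 : ((fun y : ℂ => (1 + I) * y) ⁻¹' (L.lattice : Set ℂ)).Countable :=
      h1.preimage_of_injOn hinj.injOn
    have h3 := Set.Countable.isConnected_compl_of_one_lt_rank (E := ℂ) (by simp) h2
    exact h3.isPreconnected
  set F : ℂ → ℂ := fun z => s ((1 + I) * z) ^ 2 with hF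
  set G : ℂ → ℂ := fun z => ℘[L] z * s z ^ 4 with hG
  have hUnot : ∀ z ∈ U, z ∉ L.lattice := fun z hz => one_add_I_mul_notMem L hi hz
  have hdP : ∀ z ∈ U, HasDerivAt ℘[L] (℘'[L] z) z := by
    intro z hz
    have := (L.analyticOnNhd_weierstrassP z (hUnot z hz)).differentiableAt.hasDerivAt
    rwa [L.deriv_weierstrassP] at this
  have hds : ∀ z ∉ L.lattice, HasDerivAt s (wZeta L z * s z) z := by
    intro z hz
    have h1 := (hs z).hasDerivAt
    have h2 := hlog z hz
    rw [logDeriv_apply, div_eq_iff (by rwa [ne_eq, hzero])] at h2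
    rwa [h2] at h1
  have hdF : ∀ z ∈ U, HasDerivAt F (2 * (1 + I) * wZeta L ((1 + I) * z) * F z) z := by
    intro z hz
    have h1 := hds ((1 + I) * z) hz
    have h2 : HasDerivAt (fun y : ℂ => (1 + I) * y) (1 + I) z := by
      simpa using (hasDerivAt_id z).const_mul (1 + I)
    have h3 := (h1.comp z h2).pow 2
    refine h3.congr_deriv ?_
    simp only [hF, Function.comp_apply, Nat.cast_ofNat]
    ring
  have hdG : ∀ z ∈ U, HasDerivAt G ((℘'[L] z / ℘[L] z + 4 * wZeta L z) * G z) z := by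
    intro z hz
    have h1 := (hdP z hz).mul ((hds z (hUnot z hz)).pow 4)
    refine h1.congr_deriv ?_
    have hP := weierstrassP_ne_zero_of L hi hg2 hg3 hz
    simp only [hG, Nat.cast_ofNat, Pi.pow_apply]
    field_simp
    ring
  have hF0 : ∀ z ∈ U, F z ≠ 0 := by
    intro z hz
    exact pow_ne_zero 2 (by rwa [ne_eq, hzero])
  have hG0 : ∀ z ∈ U, G z ≠ 0 := by
    intro z hz
    exact mul_ne_zero (weierstrassP_ne_zero_of L hi hg2 hg3 hz)
      (pow_ne_zero 4 (by rw [ne_eq, hzero]; exact hUnot z hz))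
  have hEq : Set.EqOn (logDeriv F) (logDeriv G) U := by
    intro z hz
    rw [logDeriv_apply, logDeriv_apply, (hdF z hz).deriv, (hdG z hz).deriv,
      mul_div_cancel_right₀ _ (hF0 z hz), mul_div_cancel_right₀ _ (hG0 z hz)]
    have hP := weierstrassP_ne_zero_of L hi hg2 hg3 hz
    have h1 := wZeta_one_add_I L hi hz
    rw [← h1]
    field_simp
    ring
  obtain ⟨c, hc0, hc⟩ := (logDeriv_eqOn_iff
    (fun z hz => (hdF z hz).differentiableAt.differentiableWithinAt)
    (fun z hz => (hdG z hz).differentiableAt.differentiableWithinAt) hUo hUc hG0 hF0).mp hEq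
  have hUev : ∀ᶠ z in 𝓝[≠] (0 : ℂ), z ∈ U := by
    have h1 := eventually_notMem_lattice L 0
    have h2 : Tendsto (fun y : ℂ => (1 + I) * y) (𝓝[≠] 0) (𝓝[≠] 0) := by
      refine tendsto_nhdsWithin_of_tendsto_nhds_of_eventually_within _ ?_ ?_
      · have : ContinuousAt (fun y : ℂ => (1 + I) * y) 0 := by fun_prop
        simpa using this.tendsto.mono_left nhdsWithin_le_nhds
      · filter_upwards [self_mem_nhdsWithin] with y hy
        exact mul_ne_zero one_add_I_ne hy
    exact h2.eventually h1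
  have hcI : c = 2 * I := by
    have h2 : Tendsto (fun y : ℂ => (1 + I) * y) (𝓝[≠] 0) (𝓝[≠] 0) := by
      refine tendsto_nhdsWithin_of_tendsto_nhds_of_eventually_within _ ?_ ?_
      · have : ContinuousAt (fun y : ℂ => (1 + I) * y) 0 := by fun_prop
        simpa using this.tendsto.mono_left nhdsWithin_le_nhds
      · filter_upwards [self_mem_nhdsWithin] with y hy
        exact mul_ne_zero one_add_I_ne hy
    have l1 := (hlim.comp h2).pow 2
    have l2 := (tendsto_sq_mul_weierstrassP L).mul (hlim.pow 4)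
    have l3 := l1.mul_const ((1 + I) ^ 2)
    have l4 := l2.mul_const c
    have l5 : (fun z => ((fun z => s z / z) ∘ fun y => (1 + I) * y) z ^ 2 * (1 + I) ^ 2) =ᶠ[𝓝[≠] 0]
        (fun z => z ^ 2 * ℘[L] z * (s z / z) ^ 4 * c) := by
      filter_upwards [hUev, self_mem_nhdsWithin] with z hz hz0
      have hz0' : z ≠ 0 := hz0
      have h3 := hc hz
      simp only [hF, hG, Pi.smul_apply, smul_eq_mul] at h3
      simp only [Function.comp_apply]
      have h4 : (1 + I : ℂ) ≠ 0 := one_add_I_ne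
      rw [div_pow, h3]
      field_simp
    have l6 := tendsto_nhds_unique (l3.congr' l5) l4
    rw [one_add_I_sq] at l6
    linear_combination -l6
  by_cases hz : (1 + I) * z ∈ L.lattice
  · rw [(hzero _).mpr hz]
    by_cases hz' : z ∈ L.lattice
    · rw [(hzero _).mpr hz']
      ring
    · rw [weierstrassP_eq_zero_of L hi hz]
      ring
  · have h3 := hc (x := z) hz
    simp only [hF, hG, Pi.smul_apply, smul_eq_mul] at h3
    rw [h3, hcI]
    ring

end Pool.Agent.Lib.MP_4b482e_nt
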